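import Pool.Agent.Lib.H5C.FD2
import Pool.Agent.Lib.Helper57.PairCount

/-!
# H92V: definitions (see `PROOF.md`)
-/

open Finset

namespace Pool.Agent.Lib.H92V

/-- Number of the `(a, b, c, d) ∈ A × B × C × D` with `a + d = b + c`. -/
def qd (A B C D : Finset ℕ) : ℕ :=
  (((A ×ˢ B) ×ˢ (C ×ˢ D)).filter (fun x => x.1.1 + x.2.2 = x.1.2 + x.2.1)).card

/-- Additive energy. -/
def en (A : Finset ℕ) : ℕ := qd A A A A

/-- Number of the `x ∈ A` with `x + h ∈ A`. -/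
def rp (A : Finset ℕ) (h : ℕ) : ℕ := (A.filter (fun x => x + h ∈ A)).card

/-- `∑_{1 ≤ h ≤ H} rp A h ^ 2`. -/
def e2 (A : Finset ℕ) (H : ℕ) : ℕ := ∑ h ∈ Icc 1 H, rp A h ^ 2

/-- The numbers `a + x + M t` and `a + x + h + M t`, `x, x + h ∈ R`, are primes, and no `a + z + M t`
with `z ∈ R`, `x < z < x + h`, is prime. -/
def GV (R : Finset ℕ) (a M h t : ℕ) : Prop :=
  ∃ x ∈ R, x + h ∈ R ∧ (a + x + M * t).Prime ∧ (a + (x + h) + M * t).Prime ∧
    ∀ z ∈ R, x < z → z < x + h → ¬ (a + z + M * t).Prime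

end Pool.Agent.Lib.H92V
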