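import Pool.Agent.Lib.H92V.V1A

/-!
# Chunk V1: additive energy, the `L^4` triangle inequality
-/

open Finset

namespace Pool.Agent.Lib.H92V

theorem V1_card_fiber {α β κ : Type*} [DecidableEq κ] (s : Finset α) (t : Finset β)
    (φ : α → κ) (ψ : β → κ) (K : Finset κ) (hK : ∀ x ∈ s, φ x ∈ K) :
    ((s ×ˢ t).filter (fun z => φ z.1 = ψ z.2)).card =
      ∑ k ∈ K, (s.filter (fun x => φ x = k)).card * (t.filter (fun y => ψ y = k)).card := by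
  rw [card_eq_sum_card_fiberwise (f := fun z : α × β => φ z.1) (t := K)]
  · apply sum_congr rfl
    intro k _
    rw [← card_product]
    congr 1
    ext z
    simp only [mem_filter, mem_product]
    constructor
    · rintro ⟨⟨⟨h1, h2⟩, h3⟩, h4⟩
      exact ⟨⟨h1, h4⟩, ⟨h2, by rw [← h3, h4]⟩⟩
    · rintro ⟨⟨h1, h2⟩, ⟨h3, h4⟩⟩
      exact ⟨⟨⟨h1, h3⟩, by rw [h2, h4]⟩, h2⟩
  · intro z hz
    have hz' := mem_filter.mp (mem_coe.mp hz)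
    exact hK _ (mem_product.mp hz'.1).1

/-- the difference -/
def V1_df (u : ℕ × ℕ) : ℤ := (u.2 : ℤ) - u.1

theorem V1_cs (A B C D : Finset ℕ) : qd A B C D ^ 2 ≤ qd A B A B * qd C D C D := by
  classical
  have key : ∀ A B C D : Finset ℕ, qd A B C D = (((A ×ˢ B) ×ˢ (C ×ˢ D)).filter
      (fun z => V1_df z.1 = V1_df z.2)).card := by
    intro A B C D
    unfold qd
    congr 1
    apply filter_congr
    intro z _
    unfold V1_df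
    constructor <;> intro h <;> omega
  set K : Finset ℤ := (A ×ˢ B).image V1_df ∪ (C ×ˢ D).image V1_df with hK
  have hK1 : ∀ u ∈ A ×ˢ B, V1_df u ∈ K := fun u hu =>
    mem_union_left _ (mem_image_of_mem _ hu)
  have hK2 : ∀ u ∈ C ×ˢ D, V1_df u ∈ K := fun u hu =>
    mem_union_right _ (mem_image_of_mem _ hu)
  rw [key A B C D, key A B A B, key C D C D, V1_card_fiber (A ×ˢ B) (C ×ˢ D) V1_df V1_df K hK1,
    V1_card_fiber (A ×ˢ B) (A ×ˢ B) V1_df V1_df K hK1,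
    V1_card_fiber (C ×ˢ D) (C ×ˢ D) V1_df V1_df K hK2]
  simp only [← pow_two]
  exact sum_mul_sq_le_sq_mul_sq K _ _

theorem V1_swap (A B : Finset ℕ) : qd A B A B = qd A A B B := by
  unfold qd
  refine card_nbij' (fun x => ((x.1.1, x.2.1), (x.1.2, x.2.2)))
    (fun x => ((x.1.1, x.2.1), (x.1.2, x.2.2))) ?_ ?_ ?_ ?_
  · intro x hx
    have hx' := V1A_mem_qd.mp (mem_coe.mp hx)
    rw [mem_coe, V1A_mem_qd]
    refine ⟨⟨⟨hx'.1.1.1, hx'.1.2.1⟩, ⟨hx'.1.1.2, hx'.1.2.2⟩⟩, ?_⟩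
    have := hx'.2
    simp only
    omega
  · intro x hx
    have hx' := V1A_mem_qd.mp (mem_coe.mp hx)
    rw [mem_coe, V1A_mem_qd]
    refine ⟨⟨⟨hx'.1.1.1, hx'.1.2.1⟩, ⟨hx'.1.1.2, hx'.1.2.2⟩⟩, ?_⟩
    have := hx'.2
    simp only
    omega
  · intro x _
    rfl
  · intro x _
    rfl

/-- With `f_AB(k)` = number of the `(a, b) ∈ A × B` with `b - a = k` (`k : ℤ`, `|k|` at most a large
bound): `qd A B C D = ∑_k f_AB(k) f_CD(k)`, so `qd² ≤ ∑ f_AB² ∑ f_CD²` by Cauchy-Schwarz, and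
`∑_k f_AB(k)²` = number of the solutions of `b - a = b' - a'`, i.e. of `a' - a = b' - b`,
`= ∑_k f_AA(k) f_BB(k) ≤ (∑ f_AA²)^(1/2) (∑ f_BB²)^(1/2) = (en A · en B)^(1/2)`. -/
theorem qd_pow (A B C D : Finset ℕ) :
    (qd A B C D : ℝ) ^ 4 ≤ en A * en B * en C * en D := by
  have h1 : qd A B C D ^ 2 ≤ qd A A B B * qd C C D D := by
    rw [← V1_swap A B, ← V1_swap C D]
    exact V1_cs A B C D
  have h2 : qd A A B B ^ 2 ≤ en A * en B := V1_cs A A B B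
  have h3 : qd C C D D ^ 2 ≤ en C * en D := V1_cs C C D D
  have h4 : qd A B C D ^ 4 ≤ en A * en B * en C * en D := by
    calc qd A B C D ^ 4 = (qd A B C D ^ 2) ^ 2 := by ring
      _ ≤ (qd A A B B * qd C C D D) ^ 2 := Nat.pow_le_pow_left h1 2
      _ = qd A A B B ^ 2 * qd C C D D ^ 2 := by ring
      _ ≤ (en A * en B) * (en C * en D) := Nat.mul_le_mul h2 h3
      _ = en A * en B * en C * en D := by ring
  exact_mod_cast h4

/-- `en A ≤ ∑_{i,j,k,l} qd (R i) (R j) (R k) (R l) ≤ ∑ c_i c_j c_k c_l` by `qd_pow`. -/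
theorem en_biUnion {ι : Type} [DecidableEq ι] (s : Finset ι) (R : ι → Finset ℕ) (c : ι → ℝ)
    (hc : ∀ i ∈ s, 0 ≤ c i) (h : ∀ i ∈ s, (en (R i) : ℝ) ≤ c i ^ 4) (A : Finset ℕ)
    (hA : A ⊆ s.biUnion R) : (en A : ℝ) ≤ (∑ i ∈ s, c i) ^ 4 := by
  classical
  have hq : ∀ i ∈ s, ∀ j ∈ s, ∀ k ∈ s, ∀ l ∈ s,
      (qd (R i) (R j) (R k) (R l) : ℝ) ≤ c i * c j * (c k * c l) := by
    intro i hi j hj k hk l hl
    have h1 := qd_pow (R i) (R j) (R k) (R l)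
    have h2 : (en (R i) : ℝ) * en (R j) * en (R k) * en (R l) ≤
        c i ^ 4 * c j ^ 4 * c k ^ 4 * c l ^ 4 := by
      have p1 : (0 : ℝ) ≤ en (R i) := Nat.cast_nonneg _
      have p2 : (0 : ℝ) ≤ en (R j) := Nat.cast_nonneg _
      have p3 : (0 : ℝ) ≤ en (R k) := Nat.cast_nonneg _
      have p4 : (0 : ℝ) ≤ en (R l) := Nat.cast_nonneg _
      have q1 := h i hi
      have q2 := h j hj
      have q3 := h k hk
      have q4 := h l hl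
      exact mul_le_mul (mul_le_mul (mul_le_mul q1 q2 p2 (by positivity)) q3 p3 (by positivity))
        q4 p4 (by positivity)
    have h3 : (qd (R i) (R j) (R k) (R l) : ℝ) ^ 4 ≤ (c i * c j * (c k * c l)) ^ 4 := by
      refine (h1.trans h2).trans (le_of_eq ?_)
      ring
    have h4 : 0 ≤ c i * c j * (c k * c l) :=
      mul_nonneg (mul_nonneg (hc i hi) (hc j hj)) (mul_nonneg (hc k hk) (hc l hl))
    exact le_of_pow_le_pow_left₀ (by norm_num) h4 h3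
  have hsub : ((A ×ˢ A) ×ˢ (A ×ˢ A)).filter (fun x => x.1.1 + x.2.2 = x.1.2 + x.2.1) ⊆
      ((s ×ˢ s) ×ˢ (s ×ˢ s)).biUnion (fun u =>
        ((R u.1.1 ×ˢ R u.1.2) ×ˢ (R u.2.1 ×ˢ R u.2.2)).filter
          (fun x => x.1.1 + x.2.2 = x.1.2 + x.2.1)) := by
    intro x hx
    rw [V1A_mem_qd] at hx
    obtain ⟨⟨⟨h1, h2⟩, ⟨h3, h4⟩⟩, h5⟩ := hx
    obtain ⟨i, hi, h1⟩ := mem_biUnion.mp (hA h1)
    obtain ⟨j, hj, h2⟩ := mem_biUnion.mp (hA h2)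
    obtain ⟨k, hk, h3⟩ := mem_biUnion.mp (hA h3)
    obtain ⟨l, hl, h4⟩ := mem_biUnion.mp (hA h4)
    rw [mem_biUnion]
    refine ⟨((i, j), (k, l)), ?_, ?_⟩
    · simp only [mem_product]
      exact ⟨⟨hi, hj⟩, ⟨hk, hl⟩⟩
    · rw [V1A_mem_qd]
      exact ⟨⟨⟨h1, h2⟩, ⟨h3, h4⟩⟩, h5⟩
  have h1 : en A ≤ ∑ u ∈ (s ×ˢ s) ×ˢ (s ×ˢ s), qd (R u.1.1) (R u.1.2) (R u.2.1) (R u.2.2) := by
    unfold en
    exact (card_le_card hsub).trans card_biUnion_le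
  have h2 : (en A : ℝ) ≤ ∑ u ∈ (s ×ˢ s) ×ˢ (s ×ˢ s),
      (qd (R u.1.1) (R u.1.2) (R u.2.1) (R u.2.2) : ℝ) := by exact_mod_cast h1
  refine h2.trans ?_
  have h3 : ∑ u ∈ (s ×ˢ s) ×ˢ (s ×ˢ s), (qd (R u.1.1) (R u.1.2) (R u.2.1) (R u.2.2) : ℝ) ≤
      ∑ u ∈ (s ×ˢ s) ×ˢ (s ×ˢ s), c u.1.1 * c u.1.2 * (c u.2.1 * c u.2.2) := by
    apply sum_le_sum
    intro u hu
    simp only [mem_product] at hu
    exact hq _ hu.1.1 _ hu.1.2 _ hu.2.1 _ hu.2.2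
  refine h3.trans (le_of_eq ?_)
  have h4 : ∑ u ∈ s ×ˢ s, c u.1 * c u.2 = (∑ i ∈ s, c i) * ∑ i ∈ s, c i := by
    rw [sum_mul_sum, sum_product]
  have h5 : ∑ u ∈ (s ×ˢ s) ×ˢ (s ×ˢ s), c u.1.1 * c u.1.2 * (c u.2.1 * c u.2.2) =
      (∑ u ∈ s ×ˢ s, c u.1 * c u.2) * ∑ u ∈ s ×ˢ s, c u.1 * c u.2 := by
    rw [sum_mul_sum, sum_product]
  rw [h5, h4]
  ring

end Pool.Agent.Lib.H92V
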