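import Pool.Agent.Lib.H92V.Defs

/-!
# Chunk V1A: additive energy, basic facts
-/

open Finset

namespace Pool.Agent.Lib.H92V

theorem V1A_mem_qd {A B C D : Finset ℕ} {x : (ℕ × ℕ) × (ℕ × ℕ)} :
    x ∈ ((A ×ˢ B) ×ˢ (C ×ˢ D)).filter (fun x => x.1.1 + x.2.2 = x.1.2 + x.2.1) ↔
      ((x.1.1 ∈ A ∧ x.1.2 ∈ B) ∧ (x.2.1 ∈ C ∧ x.2.2 ∈ D)) ∧ x.1.1 + x.2.2 = x.1.2 + x.2.1 := by
  rw [mem_filter, mem_product, mem_product, mem_product]

theorem en_mono {A B : Finset ℕ} (h : A ⊆ B) : en A ≤ en B := by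
  unfold en qd
  apply card_le_card
  intro x hx
  rw [V1A_mem_qd] at hx ⊢
  exact ⟨⟨⟨h hx.1.1.1, h hx.1.1.2⟩, ⟨h hx.1.2.1, h hx.1.2.2⟩⟩, hx.2⟩

/-- Dilation. -/
theorem en_image_mul (m : ℕ) (hm : 0 < m) (A : Finset ℕ) :
    en (A.image (fun q => m * q)) = en A := by
  unfold en qd
  symm
  refine card_bij (fun x _ => ((m * x.1.1, m * x.1.2), (m * x.2.1, m * x.2.2))) ?_ ?_ ?_
  · intro x hx
    rw [V1A_mem_qd] at hx
    obtain ⟨⟨⟨h1, h2⟩, ⟨h3, h4⟩⟩, h5⟩ := hx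
    rw [V1A_mem_qd]
    refine ⟨⟨⟨mem_image_of_mem _ h1, mem_image_of_mem _ h2⟩,
      ⟨mem_image_of_mem _ h3, mem_image_of_mem _ h4⟩⟩, ?_⟩
    simp only
    rw [← mul_add, ← mul_add, h5]
  · intro x _ y _ hxy
    simp only [Prod.mk.injEq] at hxy
    obtain ⟨⟨h1, h2⟩, h3, h4⟩ := hxy
    have h1' := Nat.eq_of_mul_eq_mul_left hm h1
    have h2' := Nat.eq_of_mul_eq_mul_left hm h2
    have h3' := Nat.eq_of_mul_eq_mul_left hm h3
    have h4' := Nat.eq_of_mul_eq_mul_left hm h4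
    exact Prod.ext (Prod.ext h1' h2') (Prod.ext h3' h4')
  · rintro ⟨⟨a, b⟩, ⟨c, d⟩⟩ hx
    rw [V1A_mem_qd] at hx
    simp only [mem_image] at hx
    obtain ⟨⟨⟨⟨a', ha, rfl⟩, ⟨b', hb, rfl⟩⟩, ⟨⟨c', hc, rfl⟩, ⟨d', hd, rfl⟩⟩⟩, h5⟩ := hx
    refine ⟨((a', b'), (c', d')), ?_, rfl⟩
    rw [V1A_mem_qd]
    refine ⟨⟨⟨ha, hb⟩, ⟨hc, hd⟩⟩, ?_⟩
    simp only
    rw [← mul_add, ← mul_add] at h5
    exact Nat.eq_of_mul_eq_mul_left hm h5

/-- `d` is determined by `a, b, c`. -/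
theorem en_le (A : Finset ℕ) : en A ≤ A.card ^ 3 := by
  have h1 : A.card ^ 3 = ((A ×ˢ A) ×ˢ A).card := by
    rw [card_product, card_product]
    ring
  rw [h1]
  unfold en qd
  refine card_le_card_of_injOn (fun x => (x.1, x.2.1)) ?_ ?_
  · intro x hx
    have hx' := V1A_mem_qd.mp (mem_coe.mp hx)
    rw [mem_coe, mem_product, mem_product]
    exact ⟨hx'.1.1, hx'.1.2.1⟩
  · intro x hx y hy hxy
    have hx' := V1A_mem_qd.mp (mem_coe.mp hx)
    have hy' := V1A_mem_qd.mp (mem_coe.mp hy)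
    simp only [Prod.mk.injEq] at hxy
    obtain ⟨h1, h2⟩ := hxy
    have h3 := hx'.2
    have h4 := hy'.2
    rw [← h1, ← h2, ← h3] at h4
    have h5 : x.2.2 = y.2.2 := by omega
    exact Prod.ext h1 (Prod.ext h2 h5)

/-- the triples `(h, x, x')` -/
def V1A_sg (A : Finset ℕ) (H : ℕ) : Finset (Σ _ : ℕ, ℕ × ℕ) :=
  (Icc 1 H).sigma (fun h => (A.filter (fun x => x + h ∈ A)) ×ˢ (A.filter (fun x => x + h ∈ A)))

theorem V1A_card_sg (A : Finset ℕ) (H : ℕ) : (V1A_sg A H).card = e2 A H := by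
  unfold V1A_sg e2 rp
  rw [card_sigma]
  apply sum_congr rfl
  intro h _
  rw [card_product]
  ring

theorem V1A_mem_sg {A : Finset ℕ} {H : ℕ} {x : Σ _ : ℕ, ℕ × ℕ} :
    x ∈ V1A_sg A H ↔ (1 ≤ x.1 ∧ x.1 ≤ H) ∧ (x.2.1 ∈ A ∧ x.2.1 + x.1 ∈ A) ∧
      (x.2.2 ∈ A ∧ x.2.2 + x.1 ∈ A) := by
  unfold V1A_sg
  rw [mem_sigma, mem_Icc, mem_product, mem_filter, mem_filter]

/-- `(h, x, x') ↦ (x, x + h, x', x' + h)` is injective. -/
theorem e2_le_en (A : Finset ℕ) (H : ℕ) : e2 A H ≤ en A := by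
  rw [← V1A_card_sg]
  unfold en qd
  refine card_le_card_of_injOn (fun x => ((x.2.1, x.2.1 + x.1), (x.2.2, x.2.2 + x.1))) ?_ ?_
  · intro x hx
    have hx' := V1A_mem_sg.mp (mem_coe.mp hx)
    rw [mem_coe, V1A_mem_qd]
    refine ⟨⟨⟨hx'.2.1.1, hx'.2.1.2⟩, ⟨hx'.2.2.1, hx'.2.2.2⟩⟩, ?_⟩
    simp only
    ring
  · rintro ⟨h, x, x'⟩ _ ⟨k, y, y'⟩ _ hxy
    simp only [Prod.mk.injEq] at hxy
    obtain ⟨⟨h1, h2⟩, h3, -⟩ := hxy
    subst h1
    subst h3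
    have : h = k := by omega
    subst this
    rfl

/-- The quadruples with `a = b` (so `c = d`), with `a < b` and with `a > b`. -/
theorem en_le_e2 (A : Finset ℕ) (H : ℕ) (hA : ∀ x ∈ A, x ≤ H) :
    en A ≤ A.card ^ 2 + 2 * e2 A H := by
  classical
  set S1 : Finset ((ℕ × ℕ) × (ℕ × ℕ)) := (A ×ˢ A).image (fun x => ((x.1, x.1), (x.2, x.2))) with hS1
  set S2 : Finset ((ℕ × ℕ) × (ℕ × ℕ)) := (V1A_sg A H).image
    (fun x => ((x.2.1, x.2.1 + x.1), (x.2.2, x.2.2 + x.1))) with hS2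
  set S3 : Finset ((ℕ × ℕ) × (ℕ × ℕ)) := (V1A_sg A H).image
    (fun x => ((x.2.1 + x.1, x.2.1), (x.2.2 + x.1, x.2.2))) with hS3
  have hsub : ((A ×ˢ A) ×ˢ (A ×ˢ A)).filter (fun x => x.1.1 + x.2.2 = x.1.2 + x.2.1) ⊆
      S1 ∪ (S2 ∪ S3) := by
    rintro ⟨⟨a, b⟩, ⟨c, d⟩⟩ hx
    rw [V1A_mem_qd] at hx
    obtain ⟨⟨⟨ha, hb⟩, ⟨hc, hd⟩⟩, h5⟩ := hx
    simp only at ha hb hc hd h5
    rw [mem_union, mem_union]
    rcases lt_trichotomy a b with h | h | h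
    · right; left
      rw [hS2, mem_image]
      have hbH := hA b hb
      refine ⟨⟨b - a, (a, c)⟩, ?_, ?_⟩
      · rw [V1A_mem_sg]
        refine ⟨⟨by simp only; omega, by simp only; omega⟩, ⟨ha, ?_⟩, ⟨hc, ?_⟩⟩
        · simp only
          have : a + (b - a) = b := by omega
          rwa [this]
        · simp only
          have : c + (b - a) = d := by omega
          rwa [this]
      · simp only [Prod.mk.injEq]
        refine ⟨⟨trivial, by omega⟩, trivial, by omega⟩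
    · left
      subst h
      have hcd : c = d := by omega
      subst hcd
      rw [hS1, mem_image]
      exact ⟨(a, c), mem_product.mpr ⟨ha, hc⟩, rfl⟩
    · right; right
      rw [hS3, mem_image]
      have haH := hA a ha
      refine ⟨⟨a - b, (b, d)⟩, ?_, ?_⟩
      · rw [V1A_mem_sg]
        refine ⟨⟨by simp only; omega, by simp only; omega⟩, ⟨hb, ?_⟩, ⟨hd, ?_⟩⟩
        · simp only
          have : b + (a - b) = a := by omega
          rwa [this]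
        · simp only
          have : d + (a - b) = c := by omega
          rwa [this]
      · simp only [Prod.mk.injEq]
        refine ⟨⟨by omega, trivial⟩, by omega, trivial⟩
  have h1 : S1.card ≤ A.card ^ 2 := by
    rw [hS1]
    refine card_image_le.trans ?_
    rw [card_product]
    exact (by ring_nf; exact le_refl _)
  have h2 : S2.card ≤ e2 A H := by
    rw [hS2, ← V1A_card_sg]
    exact card_image_le
  have h3 : S3.card ≤ e2 A H := by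
    rw [hS3, ← V1A_card_sg]
    exact card_image_le
  unfold en qd
  have h4 := card_le_card hsub
  have h5 := card_union_le S1 (S2 ∪ S3)
  have h6 := card_union_le S2 S3
  omega

end Pool.Agent.Lib.H92V
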