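import Pool.Agent.Lib.H92V.V1

/-!
# Chunk V2: additive energy of the primes
-/

open Finset Real

namespace Pool.Agent.Lib.H92V

/-- helper of chunk V2: the number of pairs of primes with a given difference -/
theorem v2_rp (Y h : ℕ) (hh : 1 ≤ h) (hY : 7000 ≤ log (Y : ℝ)) :
    (rp ((Icc 1 Y).filter Nat.Prime) h : ℝ) ≤
      2 * 10 ^ 9 * (Helper57.G h * (Y / (log (Y : ℝ)) ^ 2)) := by
  have hY0 : (1 : ℝ) ≤ Y := by
    by_contra h1
    have h2 : Y = 0 := by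
      have : Y < 1 := by exact_mod_cast (not_le.1 h1)
      omega
    rw [h2] at hY
    simp at hY
    linarith
  have hlog : log (Y : ℝ) ≤ log ((Y + 1 : ℕ) : ℝ) := by
    apply Real.log_le_log (by linarith)
    push_cast
    linarith
  have h1 : rp ((Icc 1 Y).filter Nat.Prime) h ≤
      Helper57.cnt (fun a => (0 + a).Prime ∧ (0 + h + a).Prime) (Y + 1) := by
    classical
    rw [Helper57.cnt_eq]
    unfold rp
    apply card_le_card
    intro x hx
    rw [mem_filter, mem_filter, mem_filter, mem_Icc] at hx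
    rw [mem_filter, mem_range]
    refine ⟨by omega, ?_, ?_⟩
    · rw [zero_add]
      exact hx.1.2
    · rw [zero_add, add_comm]
      exact hx.2.2
  have h2 := Helper57.cnt_pair_le 0 h (Y + 1) hh (hY.trans hlog)
  have h3 : (rp ((Icc 1 Y).filter Nat.Prime) h : ℝ) ≤
      (Helper57.cnt (fun a => (0 + a).Prime ∧ (0 + h + a).Prime) (Y + 1) : ℝ) := by
    exact_mod_cast h1
  refine h3.trans (h2.trans ?_)
  have hG := Helper57.one_le_G h
  have h4 : (((Y + 1 : ℕ) : ℝ)) / (log ((Y + 1 : ℕ) : ℝ)) ^ 2 ≤ 2 * (Y / (log (Y : ℝ)) ^ 2) := by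
    rw [← mul_div_assoc]
    apply div_le_div₀ (by positivity) _ (by positivity)
    · exact pow_le_pow_left₀ (by linarith) hlog 2
    · push_cast
      linarith
  calc (10 : ℝ) ^ 9 * (Helper57.G h * ((((Y + 1 : ℕ) : ℝ)) / (log ((Y + 1 : ℕ) : ℝ)) ^ 2))
      ≤ 10 ^ 9 * (Helper57.G h * (2 * (Y / (log (Y : ℝ)) ^ 2))) := by
        apply mul_le_mul_of_nonneg_left _ (by positivity)
        exact mul_le_mul_of_nonneg_left h4 (by linarith)
    _ = _ := by ring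

/-- `en_le_e2` with `H = Y`; `rp (primes ≤ Y) h ≤ cnt (fun a => (0 + a).Prime ∧ (0 + h + a).Prime) (Y + 1)`
`≤ 10^9 G h (Y+1)/(log (Y+1))²` (`Helper57.cnt_pair_le` with `n = 0`, `log (Y + 1) ≥ 7000`), and
`∑_{h ≤ Y} (G h)² ≤ 3 Y (500 log 4)²` (`Helper57.moment_le` with `k = 2`); the diagonal is at most
`Y² ≤ Y³/(log Y)⁴`. -/
theorem en_primes : ∃ C : ℝ, 0 < C ∧ ∃ Y₀ : ℕ, ∀ Y : ℕ, Y₀ ≤ Y →
    (en ((Icc 1 Y).filter Nat.Prime) : ℝ) ≤ C * (Y : ℝ) ^ 3 / (log Y) ^ 4 := by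
  obtain ⟨K, hK⟩ : ∃ K : ℝ, K = (500 * Real.log ((2 * 2 : ℕ) : ℝ)) ^ 2 := ⟨_, rfl⟩
  have hK0 : 0 ≤ K := by
    rw [hK]
    positivity
  refine ⟨1 + 24 * 10 ^ 18 * K, by positivity, ⌈exp 7000⌉₊, fun Y hY => ?_⟩
  have hYe : exp 7000 ≤ Y := (Nat.le_ceil _).trans (by exact_mod_cast hY)
  have hY0 : (0 : ℝ) < Y := (exp_pos _).trans_le hYe
  have hL7 : 7000 ≤ log (Y : ℝ) := by
    rw [Real.le_log_iff_exp_le hY0]
    exact hYe
  obtain ⟨L, hL⟩ : ∃ L : ℝ, L = log (Y : ℝ) := ⟨_, rfl⟩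
  rw [← hL] at hL7 ⊢
  have hL0 : 0 < L := by linarith
  -- the power of the logarithm
  have hL4 : L ^ 4 ≤ Y := by
    have h1 := Real.pow_div_factorial_le_exp L hL0.le 5
    have h2 : exp L = Y := by rw [hL, Real.exp_log hY0]
    rw [h2] at h1
    refine le_trans ?_ h1
    rw [le_div_iff₀ (by positivity)]
    have h3 : ((Nat.factorial 5 : ℕ) : ℝ) = 120 := by norm_num [Nat.factorial]
    rw [h3]
    have h4 : L ^ 5 = L ^ 4 * L := by ring
    rw [h4]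
    apply mul_le_mul_of_nonneg_left _ (by positivity)
    linarith
  -- the energy
  have h1 := en_le_e2 ((Icc 1 Y).filter Nat.Prime) Y (by
    intro x hx
    rw [mem_filter, mem_Icc] at hx
    exact hx.1.2)
  have h2 : (en ((Icc 1 Y).filter Nat.Prime) : ℝ) ≤
      (((Icc 1 Y).filter Nat.Prime).card : ℝ) ^ 2 + 2 * (e2 ((Icc 1 Y).filter Nat.Prime) Y : ℝ) := by
    exact_mod_cast h1
  have h3 : (((Icc 1 Y).filter Nat.Prime).card : ℝ) ≤ Y := by
    have : ((Icc 1 Y).filter Nat.Prime).card ≤ Y := by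
      refine (card_filter_le _ _).trans ?_
      rw [Nat.card_Icc]
      omega
    exact_mod_cast this
  have h4 : (e2 ((Icc 1 Y).filter Nat.Prime) Y : ℝ) ≤ 12 * 10 ^ 18 * K * (Y ^ 3 / L ^ 4) := by
    unfold e2
    push_cast
    calc ∑ h ∈ Icc 1 Y, (rp ((Icc 1 Y).filter Nat.Prime) h : ℝ) ^ 2
        ≤ ∑ h ∈ Icc 1 Y, (4 * 10 ^ 18 * (Y ^ 2 / L ^ 4)) * Helper57.G h ^ 2 := by
          apply Finset.sum_le_sum
          intro h hh
          have h5 := v2_rp Y h (mem_Icc.1 hh).1 (by rw [← hL]; exact hL7)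
          rw [← hL] at h5
          calc (rp ((Icc 1 Y).filter Nat.Prime) h : ℝ) ^ 2
              ≤ (2 * 10 ^ 9 * (Helper57.G h * (Y / L ^ 2))) ^ 2 :=
                pow_le_pow_left₀ (by positivity) h5 2
            _ = (4 * 10 ^ 18 * (Y ^ 2 / L ^ 4)) * Helper57.G h ^ 2 := by
                field_simp
                ring
      _ = (4 * 10 ^ 18 * (Y ^ 2 / L ^ 4)) * ∑ h ∈ Icc 1 Y, Helper57.G h ^ 2 := by
          rw [Finset.mul_sum]
      _ ≤ (4 * 10 ^ 18 * (Y ^ 2 / L ^ 4)) * (3 * (Y * K)) := by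
          apply mul_le_mul_of_nonneg_left _ (by positivity)
          rw [hK]
          exact Helper57.moment_le 2 Y (by norm_num)
      _ = 12 * 10 ^ 18 * K * (Y ^ 3 / L ^ 4) := by ring
  have h5 : (Y : ℝ) ^ 2 ≤ Y ^ 3 / L ^ 4 := by
    rw [le_div_iff₀ (by positivity)]
    have h6 : (Y : ℝ) ^ 3 = Y ^ 2 * Y := by ring
    rw [h6]
    exact mul_le_mul_of_nonneg_left hL4 (by positivity)
  calc (en ((Icc 1 Y).filter Nat.Prime) : ℝ)
      ≤ (((Icc 1 Y).filter Nat.Prime).card : ℝ) ^ 2 +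
        2 * (e2 ((Icc 1 Y).filter Nat.Prime) Y : ℝ) := h2
    _ ≤ Y ^ 3 / L ^ 4 + 2 * (12 * 10 ^ 18 * K * (Y ^ 3 / L ^ 4)) := by
        have h7 := pow_le_pow_left₀ (by positivity) h3 2
        linarith
    _ = (1 + 24 * 10 ^ 18 * K) * (Y : ℝ) ^ 3 / L ^ 4 := by ring

end Pool.Agent.Lib.H92V
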