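import Pool.Agent.Lib.H92V.V2

/-!
# Chunk V3: additive energy of the candidates of the Erdős-Rankin sieve
-/

open Finset Real
open Pool.Agent.Lib.H5C

namespace Pool.Agent.Lib.H92V

/-- geometric series with ratio `2/3` -/
theorem v3_geom (n : ℕ) : ∑ b ∈ range n, (2 / 3 : ℝ) ^ b ≤ 3 := by
  rw [geom_sum_eq (by norm_num)]
  have h : (0 : ℝ) ≤ (2 / 3) ^ n := by positivity
  have h2 : ((2 / 3 : ℝ) ^ n - 1) / (2 / 3 - 1) = 3 * (1 - (2 / 3) ^ n) := by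
    rw [div_eq_iff (by norm_num)]
    ring
  rw [h2]
  linarith

/-- the classes -/
noncomputable def v3R (H y p1 : ℕ) (R2 : Finset ℕ) : Option ℕ → Finset ℕ
  | none => R2
  | some b => if p1 ^ b * y ≤ H then
      ((Icc 1 (H / p1 ^ b)).filter Nat.Prime).image (fun q => p1 ^ b * q) else ∅

theorem v3_class (C2 : ℝ) (hC2 : 0 < C2) (Y0 : ℕ) (hY : ∀ Y : ℕ, Y0 ≤ Y →
    (en ((Icc 1 Y).filter Nat.Prime) : ℝ) ≤ C2 * (Y : ℝ) ^ 3 / (log Y) ^ 4)
    (H y p1 : ℕ) (hp1 : p1.Prime) (hy : Y0 ≤ y) (hl : 1 ≤ log (y : ℝ)) (b : ℕ) (R2 : Finset ℕ)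
    (A : ℝ) (hA0 : 0 ≤ A) (hA : C2 * ((H : ℝ) ^ 3 / (log y) ^ 4) ≤ A ^ 4) :
    (en (v3R H y p1 R2 (some b)) : ℝ) ≤ (A * (2 / 3) ^ b) ^ 4 := by
  have hl0 : 0 < log (y : ℝ) := by linarith
  have hy1 : 1 < (y : ℝ) := by
    by_contra hcon
    push Not at hcon
    have := Real.log_nonpos (Nat.cast_nonneg y) hcon
    linarith
  unfold v3R
  simp only
  split_ifs with h
  · have hpb : 0 < p1 ^ b := pow_pos hp1.pos b
    rw [en_image_mul (p1 ^ b) hpb]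
    have hyY : y ≤ H / p1 ^ b := by
      rw [Nat.le_div_iff_mul_le hpb, mul_comm]
      exact h
    have h1 := hY (H / p1 ^ b) (hy.trans hyY)
    refine h1.trans ?_
    have hYy : (y : ℝ) ≤ ((H / p1 ^ b : ℕ) : ℝ) := by exact_mod_cast hyY
    have hlog : log (y : ℝ) ≤ log ((H / p1 ^ b : ℕ) : ℝ) := Real.log_le_log (by linarith) hYy
    have h2 : ((H / p1 ^ b : ℕ) : ℝ) ≤ (H : ℝ) / 2 ^ b := by
      refine Nat.cast_div_le.trans ?_
      have h3 : (2 : ℝ) ^ b ≤ ((p1 ^ b : ℕ) : ℝ) := by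
        push_cast
        apply pow_le_pow_left₀ (by norm_num)
        exact_mod_cast hp1.two_le
      exact div_le_div_of_nonneg_left (Nat.cast_nonneg _) (by positivity) h3
    have h4 : ((H / p1 ^ b : ℕ) : ℝ) ^ 3 ≤ (H : ℝ) ^ 3 / (2 ^ b) ^ 3 := by
      rw [← div_pow]
      exact pow_le_pow_left₀ (Nat.cast_nonneg _) h2 3
    have h5 : (H : ℝ) ^ 3 / (2 ^ b) ^ 3 ≤ (H : ℝ) ^ 3 * ((2 / 3) ^ b) ^ 4 := by
      rw [div_le_iff₀ (by positivity)]
      have h6 : (1 : ℝ) ≤ ((2 / 3) ^ b) ^ 4 * (2 ^ b) ^ 3 := by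
        have h7 : (((2 / 3 : ℝ)) ^ b) ^ 4 * (2 ^ b) ^ 3 = (128 / 81) ^ b := by
          rw [← pow_mul, ← pow_mul, mul_comm b 4, mul_comm b 3, pow_mul, pow_mul, ← mul_pow]
          norm_num
        rw [h7]
        exact one_le_pow₀ (by norm_num)
      calc (H : ℝ) ^ 3 = (H : ℝ) ^ 3 * 1 := by ring
        _ ≤ (H : ℝ) ^ 3 * (((2 / 3) ^ b) ^ 4 * (2 ^ b) ^ 3) :=
            mul_le_mul_of_nonneg_left h6 (by positivity)
        _ = _ := by ring
    calc C2 * ((H / p1 ^ b : ℕ) : ℝ) ^ 3 / (log ((H / p1 ^ b : ℕ) : ℝ)) ^ 4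
        ≤ C2 * ((H / p1 ^ b : ℕ) : ℝ) ^ 3 / (log (y : ℝ)) ^ 4 := by
          apply div_le_div_of_nonneg_left (by positivity) (by positivity)
          exact pow_le_pow_left₀ hl0.le hlog 4
      _ ≤ C2 * ((H : ℝ) ^ 3 * ((2 / 3) ^ b) ^ 4) / (log (y : ℝ)) ^ 4 := by
          apply div_le_div_of_nonneg_right _ (by positivity)
          exact mul_le_mul_of_nonneg_left (h4.trans h5) hC2.le
      _ = (C2 * ((H : ℝ) ^ 3 / (log y) ^ 4)) * ((2 / 3) ^ b) ^ 4 := by ring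
      _ ≤ A ^ 4 * ((2 / 3) ^ b) ^ 4 := mul_le_mul_of_nonneg_right hA (by positivity)
      _ = (A * (2 / 3) ^ b) ^ 4 := by rw [mul_pow]
  · have h0 : en (∅ : Finset ℕ) = 0 := by
      have := en_le (∅ : Finset ℕ)
      rw [card_empty] at this
      simpa using this
    rw [h0, Nat.cast_zero]
    positivity

/-- `H = hE κ y`. By `re_cases` every element of `RE` is `p1^b q` with a prime `q > y` (so `p1^b y < H`,
`b ≤ Nat.log 2 H`), or in the set `R2` of the `h ≤ H` divisible by an element of `D` or whose prime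
factors are `≤ zE y` or `= p1`; `|R2| ≤ 2 H/(log y)^4` (`smooth_count`, `mult_count`).
`en_biUnion` with the classes `b` (`0 ≤ b ≤ Nat.log 2 H`, `p1^b y ≤ H`) and `R2`:
`en {p1^b q : q ≤ H/p1^b prime} = en (primes ≤ H/p1^b) ≤ C (H/p1^b)³/(log y)^4` (`en_image_mul`, `en_mono`,
`en_primes`, `H/p1^b ≥ y`), so `c_b = C^(1/4) (H/2^b)^(3/4)/log y`, and `∑_b 2^(-3b/4) ≤ 4`;
`en R2 ≤ |R2|³ ≤ 8 H³/(log y)^12` (`en_le`), `c = 2 H^(3/4)/log y`. -/
theorem en_RE : ∃ C : ℝ, 0 < C ∧ ∀ κ : ℝ, 0 < κ → κ ≤ 1 → ∃ y₀ : ℕ, ∀ y : ℕ, y₀ ≤ y →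
    ∀ (D : Finset ℕ) (p1 : ℕ), OKD y D p1 →
      (en (RE κ y D p1) : ℝ) ≤ C * (hE κ y : ℝ) ^ 3 / (log y) ^ 4 := by
  classical
  obtain ⟨C2, hC2, Y0, hY⟩ := en_primes
  refine ⟨256 * (C2 + 8), by positivity, fun κ hκ hκ1 => ?_⟩
  obtain ⟨y1, hy1⟩ := er_sizes κ hκ hκ1
  obtain ⟨y2, hy2⟩ := re_cases κ hκ hκ1
  obtain ⟨y3, hy3⟩ := smooth_count κ hκ hκ1
  obtain ⟨y4, hy4⟩ := mult_count κ hκ hκ1
  refine ⟨y1 + y2 + y3 + y4 + Y0, fun y hy D p1 hD => ?_⟩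
  obtain ⟨hl1, -⟩ := hy1 y (by omega)
  have hcases := hy2 y (by omega) D p1 hD
  have hsm := hy3 y (by omega) p1 hD.1
  have hmu := hy4 y (by omega) D p1 hD
  have hl : 1 ≤ log (y : ℝ) := by linarith
  have hl0 : 0 < log (y : ℝ) := by linarith
  set H := hE κ y with hH
  set R2 : Finset ℕ := (Icc 1 H).filter (fun h => ∃ d ∈ D, d ∣ h) ∪
      (Icc 1 H).filter (fun h => ∀ p ∈ h.primeFactors, p ≤ zE y ∨ p = p1) with hR2
  have hX0 : 0 ≤ (C2 + 8) * ((H : ℝ) ^ 3 / (log (y : ℝ)) ^ 4) := by positivity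
  obtain ⟨A, hA0, hA⟩ : ∃ A : ℝ, 0 ≤ A ∧ A ^ 4 = (C2 + 8) * ((H : ℝ) ^ 3 / (log (y : ℝ)) ^ 4) := by
    refine ⟨((C2 + 8) * ((H : ℝ) ^ 3 / (log (y : ℝ)) ^ 4)) ^ ((1 : ℝ) / 4), by positivity, ?_⟩
    rw [← Real.rpow_natCast, ← Real.rpow_mul hX0]
    norm_num
  have hfr : 0 ≤ (H : ℝ) ^ 3 / (log (y : ℝ)) ^ 4 := by positivity
  -- the rest
  have hcardR2 : (R2.card : ℝ) ≤ 2 * (H / (log (y : ℝ)) ^ 4) := by
    have h1 := Finset.card_union_le ((Icc 1 H).filter (fun h => ∃ d ∈ D, d ∣ h))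
      ((Icc 1 H).filter (fun h => ∀ p ∈ h.primeFactors, p ≤ zE y ∨ p = p1))
    have h2 : (R2.card : ℝ) ≤ ((Icc 1 H).filter (fun h => ∃ d ∈ D, d ∣ h)).card +
      ((Icc 1 H).filter (fun h => ∀ p ∈ h.primeFactors, p ≤ zE y ∨ p = p1)).card := by
      exact_mod_cast h1
    linarith
  have henR2 : (en R2 : ℝ) ≤ A ^ 4 := by
    have h1 : (en R2 : ℝ) ≤ (R2.card : ℝ) ^ 3 := by exact_mod_cast en_le R2
    calc (en R2 : ℝ) ≤ (R2.card : ℝ) ^ 3 := h1
      _ ≤ (2 * (H / (log (y : ℝ)) ^ 4)) ^ 3 := pow_le_pow_left₀ (Nat.cast_nonneg _) hcardR2 3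
      _ = 8 * ((H : ℝ) ^ 3 / ((log (y : ℝ)) ^ 4) ^ 3) := by ring
      _ ≤ 8 * ((H : ℝ) ^ 3 / (log (y : ℝ)) ^ 4) := by
          apply mul_le_mul_of_nonneg_left _ (by norm_num)
          apply div_le_div_of_nonneg_left (by positivity) (by positivity)
          calc (log (y : ℝ)) ^ 4 = ((log (y : ℝ)) ^ 4) ^ 1 := (pow_one _).symm
            _ ≤ ((log (y : ℝ)) ^ 4) ^ 3 := pow_le_pow_right₀ (one_le_pow₀ hl) (by norm_num)
      _ ≤ A ^ 4 := by
          rw [hA]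
          nlinarith [mul_nonneg hC2.le hfr]
  -- the union
  have hsub : RE κ y D p1 ⊆ (insertNone (range (Nat.log 2 H + 1))).biUnion (v3R H y p1 R2) := by
    intro h hh
    have hIcc : h ∈ Icc 1 H := by
      rw [RE, Finset.mem_filter] at hh
      exact hh.1
    have hmem := Finset.mem_Icc.1 hIcc
    rw [Finset.mem_biUnion]
    rcases hcases h hh with ⟨b, q, hq, hyq, hbq⟩ | h1 | h1
    · have hpb : 0 < p1 ^ b := pow_pos hD.1.pos b
      refine ⟨some b, ?_, ?_⟩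
      · rw [some_mem_insertNone, Finset.mem_range, Nat.lt_succ_iff]
        apply Nat.le_log_of_pow_le (by norm_num)
        calc 2 ^ b ≤ p1 ^ b := Nat.pow_le_pow_left hD.1.two_le b
          _ ≤ p1 ^ b * q := Nat.le_mul_of_pos_right _ hq.pos
          _ ≤ H := hbq ▸ hmem.2
      · have hle : p1 ^ b * y ≤ H := by
          calc p1 ^ b * y ≤ p1 ^ b * q := Nat.mul_le_mul_left _ hyq.le
            _ ≤ H := hbq ▸ hmem.2
        change h ∈ (if p1 ^ b * y ≤ H then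
          ((Icc 1 (H / p1 ^ b)).filter Nat.Prime).image (fun q => p1 ^ b * q) else ∅)
        rw [if_pos hle, Finset.mem_image]
        refine ⟨q, ?_, hbq.symm⟩
        rw [Finset.mem_filter, Finset.mem_Icc]
        refine ⟨⟨hq.one_le, ?_⟩, hq⟩
        rw [Nat.le_div_iff_mul_le hpb, mul_comm]
        exact hbq ▸ hmem.2
    · refine ⟨none, none_mem_insertNone, ?_⟩
      change h ∈ R2
      exact Finset.mem_union_left _ (Finset.mem_filter.2 ⟨hIcc, h1⟩)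
    · refine ⟨none, none_mem_insertNone, ?_⟩
      change h ∈ R2
      exact Finset.mem_union_right _ (Finset.mem_filter.2 ⟨hIcc, h1⟩)
  have hmain := en_biUnion (insertNone (range (Nat.log 2 H + 1))) (v3R H y p1 R2)
    (fun o => o.elim A (fun b => A * (2 / 3) ^ b)) (fun i _ => by
      rcases i with _ | b
      · exact hA0
      · exact mul_nonneg hA0 (by positivity)) (fun i _ => by
      rcases i with _ | b
      · exact henR2
      · refine v3_class C2 hC2 Y0 hY H y p1 hD.1 (by omega) hl b R2 A hA0 ?_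
        rw [hA]
        nlinarith) (RE κ y D p1) hsub
  refine hmain.trans ?_
  have hsum : ∑ i ∈ insertNone (range (Nat.log 2 H + 1)),
      (fun o : Option ℕ => o.elim A (fun b => A * (2 / 3) ^ b)) i ≤ 4 * A := by
    rw [Finset.sum_insertNone]
    simp only [Option.elim_none, Option.elim_some]
    rw [← Finset.mul_sum]
    nlinarith [v3_geom (Nat.log 2 H + 1)]
  have hsum0 : 0 ≤ ∑ i ∈ insertNone (range (Nat.log 2 H + 1)),
      (fun o : Option ℕ => o.elim A (fun b => A * (2 / 3) ^ b)) i := by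
    apply Finset.sum_nonneg
    intro i _
    rcases i with _ | b
    · exact hA0
    · exact mul_nonneg hA0 (by positivity)
  calc (∑ i ∈ insertNone (range (Nat.log 2 H + 1)),
      (fun o : Option ℕ => o.elim A (fun b => A * (2 / 3) ^ b)) i) ^ 4
      ≤ (4 * A) ^ 4 := pow_le_pow_left₀ hsum0 hsum 4
    _ = 256 * A ^ 4 := by ring
    _ = 256 * (C2 + 8) * (H : ℝ) ^ 3 / (log y) ^ 4 := by rw [hA]; ring

end Pool.Agent.Lib.H92V
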