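import Pool.Agent.Lib.H92V.V4A

/-!
# Chunk V4: mean value of `e2`
-/

open Finset Real
open Pool.Agent.Lib.H5C

namespace Pool.Agent.Lib.H92V

/-- `rp` of the survivors as a sum of indicators. -/
theorem rp_surv (P R : Finset ℕ) (a h : ℕ) :
    (rp (R.filter (fun h => ∀ p ∈ P, ¬ p ∣ a + h)) h : ℝ) =
      ∑ x ∈ R, (if ((∀ p ∈ P, ¬ p ∣ a + x) ∧ x + h ∈ R ∧ ∀ p ∈ P, ¬ p ∣ a + (x + h)) then
        (1 : ℝ) else 0) := by
  unfold rp
  rw [filter_filter, card_filter]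
  push_cast
  refine sum_congr rfl fun x _ => ?_
  simp only [mem_filter]

/-- `rp` as a sum of indicators. -/
theorem rp_sum (R : Finset ℕ) (h : ℕ) :
    (rp R h : ℝ) = ∑ x ∈ R, (if x + h ∈ R then (1 : ℝ) else 0) := by
  unfold rp
  rw [card_filter]
  push_cast
  rfl

/-- The number of pairs of elements of `R` at positive distance. -/
theorem sum_rp_le (R : Finset ℕ) (H : ℕ) :
    ∑ h ∈ Icc 1 H, (rp R h : ℝ) ≤ (R.card : ℝ) ^ 2 := by
  have h1 : ∑ h ∈ Icc 1 H, (rp R h : ℝ) = ∑ x ∈ R, ∑ h ∈ Icc 1 H, (if x + h ∈ R then (1 : ℝ) else 0) := by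
    rw [sum_comm]
    exact sum_congr rfl fun h _ => rp_sum R h
  rw [h1]
  have h2 : ∀ x ∈ R, ∑ h ∈ Icc 1 H, (if x + h ∈ R then (1 : ℝ) else 0) ≤ R.card := by
    intro x _
    rw [show ∑ h ∈ Icc 1 H, (if x + h ∈ R then (1 : ℝ) else 0) = (((Icc 1 H).filter (fun h => x + h ∈ R)).card : ℝ) by
      rw [card_filter]; push_cast; rfl]
    exact_mod_cast card_le_card_of_injOn (fun h => x + h) (fun h hh => by
      have := (mem_filter.1 hh).2
      exact this) (fun h _ h' _ e => by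
      have : x + h = x + h' := e
      omega)
  calc ∑ x ∈ R, ∑ h ∈ Icc 1 H, (if x + h ∈ R then (1 : ℝ) else 0) ≤ ∑ _x ∈ R, (R.card : ℝ) :=
        sum_le_sum h2
    _ = (R.card : ℝ) ^ 2 := by
        rw [sum_const, nsmul_eq_mul, sq]

/-- The mean over `a` of one term. -/
theorem term_le (P : Finset ℕ) (w H : ℕ) (hw : 2 ≤ w) (hP : ∀ p ∈ P, p.Prime ∧ w < p)
    (hH : exp (4 * log H / w) ≤ 1 + 1 / 64) (R : Finset ℕ) (hR : ∀ h ∈ R, 1 ≤ h ∧ h ≤ H)
    (h : ℕ) (hh : 1 ≤ h) (x x' : ℕ) (hx : x ∈ R) (hx' : x' ∈ R) :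
    ∑ a ∈ range (∏ p ∈ P, p),
      (if ((∀ p ∈ P, ¬ p ∣ a + x) ∧ x + h ∈ R ∧ ∀ p ∈ P, ¬ p ∣ a + (x + h)) then (1 : ℝ) else 0) *
      (if ((∀ p ∈ P, ¬ p ∣ a + x') ∧ x' + h ∈ R ∧ ∀ p ∈ P, ¬ p ∣ a + (x' + h)) then
        (1 : ℝ) else 0) ≤
    2 * (∏ p ∈ P, (p : ℝ)) *
      ((∏ p ∈ P, (1 - 1 / (p : ℝ))) ^ 4 *
          ((if x + h ∈ R then (1 : ℝ) else 0) * (if x' + h ∈ R then (1 : ℝ) else 0)) +
        (∏ p ∈ P, (1 - 1 / (p : ℝ))) ^ 2 *
          (if x' = x then (if x + h ∈ R then (1 : ℝ) else 0) else 0) +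
        (∏ p ∈ P, (1 - 1 / (p : ℝ))) ^ 3 *
          (if x' = x + h then (if x + h ∈ R then (1 : ℝ) else 0) else 0) +
        (∏ p ∈ P, (1 - 1 / (p : ℝ))) ^ 3 *
          (if x = x' + h then (if x' + h ∈ R then (1 : ℝ) else 0) else 0)) := by
  classical
  have hQ0 : 0 ≤ ∏ p ∈ P, (p : ℝ) := prod_nonneg fun p _ => Nat.cast_nonneg _
  have hfac : ∀ p ∈ P, 0 ≤ 1 - 1 / (p : ℝ) ∧ 1 - 1 / (p : ℝ) ≤ 1 := by
    intro p hp
    have hp1 := (hP p hp).1
    have hp2 : (2 : ℝ) ≤ p := by exact_mod_cast hp1.two_le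
    have hx1 : 1 / (p : ℝ) ≤ 1 / 2 := one_div_le_one_div_of_le (by norm_num) hp2
    have hx2 : 0 < 1 / (p : ℝ) := by positivity
    constructor <;> linarith
  set V := ∏ p ∈ P, (1 - 1 / (p : ℝ)) with hV
  have hV0 : 0 ≤ V := prod_nonneg fun p hp => (hfac p hp).1
  have hV1 : V ≤ 1 := prod_le_one (fun p hp => (hfac p hp).1) fun p hp => (hfac p hp).2
  have hn2 : 0 ≤ V ^ 2 * (if x' = x then (if x + h ∈ R then (1 : ℝ) else 0) else 0) := by
    apply mul_nonneg (pow_nonneg hV0 _)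
    split_ifs <;> norm_num
  have hn3 : 0 ≤ V ^ 3 * (if x' = x + h then (if x + h ∈ R then (1 : ℝ) else 0) else 0) := by
    apply mul_nonneg (pow_nonneg hV0 _)
    split_ifs <;> norm_num
  have hn4 : 0 ≤ V ^ 3 * (if x = x' + h then (if x' + h ∈ R then (1 : ℝ) else 0) else 0) := by
    apply mul_nonneg (pow_nonneg hV0 _)
    split_ifs <;> norm_num
  have hn1 : 0 ≤ V ^ 4 * ((if x + h ∈ R then (1 : ℝ) else 0) * (if x' + h ∈ R then (1 : ℝ) else 0)) := by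
    apply mul_nonneg (pow_nonneg hV0 _)
    apply mul_nonneg <;> split_ifs <;> norm_num
  by_cases h1 : x + h ∈ R
  swap
  · have : ∀ a ∈ range (∏ p ∈ P, p),
      (if ((∀ p ∈ P, ¬ p ∣ a + x) ∧ x + h ∈ R ∧ ∀ p ∈ P, ¬ p ∣ a + (x + h)) then (1 : ℝ) else 0) *
      (if ((∀ p ∈ P, ¬ p ∣ a + x') ∧ x' + h ∈ R ∧ ∀ p ∈ P, ¬ p ∣ a + (x' + h)) then
        (1 : ℝ) else 0) = 0 := by
      intro a _
      rw [if_neg (fun h2 => h1 h2.2.1), zero_mul]
    rw [sum_eq_zero this]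
    positivity
  by_cases h2 : x' + h ∈ R
  swap
  · have : ∀ a ∈ range (∏ p ∈ P, p),
      (if ((∀ p ∈ P, ¬ p ∣ a + x) ∧ x + h ∈ R ∧ ∀ p ∈ P, ¬ p ∣ a + (x + h)) then (1 : ℝ) else 0) *
      (if ((∀ p ∈ P, ¬ p ∣ a + x') ∧ x' + h ∈ R ∧ ∀ p ∈ P, ¬ p ∣ a + (x' + h)) then
        (1 : ℝ) else 0) = 0 := by
      intro a _
      rw [mul_eq_zero]
      right
      exact if_neg (fun h3 => h2 h3.2.1)
    rw [sum_eq_zero this]
    positivity
  -- the main case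
  set X : Finset ℕ := {x, x + h, x', x' + h} with hXdef
  have hXR : ∀ z ∈ X, 1 ≤ z ∧ z ≤ H := by
    intro z hz
    rw [hXdef] at hz
    simp only [mem_insert, mem_singleton] at hz
    rcases hz with rfl | rfl | rfl | rfl
    · exact hR _ hx
    · exact hR _ h1
    · exact hR _ hx'
    · exact hR _ h2
  have hX4 : X.card ≤ 4 := card_le_four
  have hcorr := corr P w H hw hP hH X hXR hX4
  have hsum : ∑ a ∈ range (∏ p ∈ P, p),
      (if ((∀ p ∈ P, ¬ p ∣ a + x) ∧ x + h ∈ R ∧ ∀ p ∈ P, ¬ p ∣ a + (x + h)) then (1 : ℝ) else 0) *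
      (if ((∀ p ∈ P, ¬ p ∣ a + x') ∧ x' + h ∈ R ∧ ∀ p ∈ P, ¬ p ∣ a + (x' + h)) then
        (1 : ℝ) else 0) =
      (((range (∏ p ∈ P, p)).filter (fun a => ∀ x ∈ X, ∀ p ∈ P, ¬ p ∣ a + x)).card : ℝ) := by
    rw [card_filter]
    push_cast
    refine sum_congr rfl fun a _ => ?_
    by_cases h3 : ∀ z ∈ X, ∀ p ∈ P, ¬ p ∣ a + z
    · rw [if_pos h3, if_pos, if_pos, one_mul]
      · exact ⟨h3 x' (by simp [hXdef]), h2, h3 (x' + h) (by simp [hXdef])⟩
      · exact ⟨h3 x (by simp [hXdef]), h1, h3 (x + h) (by simp [hXdef])⟩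
    · rw [if_neg h3]
      by_cases h4 : ((∀ p ∈ P, ¬ p ∣ a + x) ∧ x + h ∈ R ∧ ∀ p ∈ P, ¬ p ∣ a + (x + h))
      · by_cases h5 : ((∀ p ∈ P, ¬ p ∣ a + x') ∧ x' + h ∈ R ∧ ∀ p ∈ P, ¬ p ∣ a + (x' + h))
        · exfalso
          apply h3
          intro z hz
          rw [hXdef] at hz
          simp only [mem_insert, mem_singleton] at hz
          rcases hz with rfl | rfl | rfl | rfl
          · exact h4.1
          · exact h4.2.2
          · exact h5.1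
          · exact h5.2.2
        · rw [if_neg h5, mul_zero]
      · rw [if_neg h4, zero_mul]
  rw [hsum]
  have hcard : ∀ k, k ≤ X.card → V ^ X.card ≤ V ^ k := fun k hk => pow_le_pow_of_le_one hV0 hV1 hk
  have hfin : ∀ k, k ≤ X.card → ∀ B, V ^ k ≤ B →
      (((range (∏ p ∈ P, p)).filter (fun a => ∀ x ∈ X, ∀ p ∈ P, ¬ p ∣ a + x)).card : ℝ) ≤
        2 * (∏ p ∈ P, (p : ℝ)) * B := by
    intro k hk B hB
    calc (((range (∏ p ∈ P, p)).filter (fun a => ∀ x ∈ X, ∀ p ∈ P, ¬ p ∣ a + x)).card : ℝ)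
        ≤ 2 * ((∏ p ∈ P, (p : ℝ)) * V ^ X.card) := hcorr
      _ = 2 * (∏ p ∈ P, (p : ℝ)) * V ^ X.card := by ring
      _ ≤ _ := mul_le_mul_of_nonneg_left ((hcard k hk).trans hB) (by positivity)
  rw [if_pos h1, if_pos h2] at hn1
  by_cases e1 : x' = x
  · apply hfin 2
    · have h6 : ({x, x + h} : Finset ℕ) ⊆ X := by
        intro z hz
        simp only [mem_insert, mem_singleton] at hz
        rw [hXdef]
        simp only [mem_insert, mem_singleton]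
        tauto
      have h7 := card_le_card h6
      rw [card_pair (by omega)] at h7
      exact h7
    · rw [if_pos h1, if_pos h2, if_pos e1]
      rw [if_pos h1] at hn3
      rw [if_pos h2] at hn4
      linarith
  · by_cases e2 : x' = x + h
    · apply hfin 3
      · have h6 : ({x, x + h, x' + h} : Finset ℕ) ⊆ X := by
          intro z hz
          simp only [mem_insert, mem_singleton] at hz
          rw [hXdef]
          simp only [mem_insert, mem_singleton]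
          tauto
        have h7 := card_le_card h6
        rw [card_eq_three.2 ⟨x, x + h, x' + h, by omega, by omega, by omega, rfl⟩] at h7
        exact h7
      · rw [if_pos h1, if_pos h2, if_pos e2]
        rw [if_pos h1] at hn2
        rw [if_pos h2] at hn4
        linarith
    · by_cases e3 : x = x' + h
      · apply hfin 3
        · have h6 : ({x, x + h, x'} : Finset ℕ) ⊆ X := by
            intro z hz
            simp only [mem_insert, mem_singleton] at hz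
            rw [hXdef]
            simp only [mem_insert, mem_singleton]
            tauto
          have h7 := card_le_card h6
          rw [card_eq_three.2 ⟨x, x + h, x', by omega, by omega, by omega, rfl⟩] at h7
          exact h7
        · rw [if_pos h1, if_pos h2, if_pos e3]
          rw [if_pos h1] at hn2 hn3
          linarith
      · apply hfin 4
        · rw [hXdef, card_insert_of_notMem, card_insert_of_notMem, card_insert_of_notMem,
            card_singleton]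
          · rw [mem_singleton]; omega
          · simp only [mem_insert, mem_singleton]; omega
          · simp only [mem_insert, mem_singleton]; omega
        · rw [if_pos h1, if_pos h2]
          rw [if_pos h1] at hn2 hn3
          rw [if_pos h2] at hn4
          linarith

/-- Expand `e2 (S_a) H = ∑_h ∑_{x, x' ∈ R, x + h, x' + h ∈ R} 1[x, x + h, x', x' + h ∈ S_a]` and use
`corr` with `X = {x, x + h, x', x' + h}`, which has 2 elements if `x = x'`, 3 elements if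
`x' = x + h` or `x = x' + h`, else 4 elements. The number of the terms of the three kinds is at most
`|R|²`, `2 |R|²`, `e2 R H`. -/
theorem sum_e2 (P : Finset ℕ) (w H : ℕ) (hw : 2 ≤ w) (hP : ∀ p ∈ P, p.Prime ∧ w < p)
    (hH : exp (4 * log H / w) ≤ 1 + 1 / 64) (R : Finset ℕ) (hR : ∀ h ∈ R, 1 ≤ h ∧ h ≤ H) :
    ∑ a ∈ range (∏ p ∈ P, p), (e2 (R.filter (fun h => ∀ p ∈ P, ¬ p ∣ a + h)) H : ℝ) ≤
      (∏ p ∈ P, (p : ℝ)) * (2 * (∏ p ∈ P, (1 - 1 / (p : ℝ))) ^ 4 * e2 R H +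
        4 * (∏ p ∈ P, (1 - 1 / (p : ℝ))) ^ 3 * (R.card : ℝ) ^ 2 +
        2 * (∏ p ∈ P, (1 - 1 / (p : ℝ))) ^ 2 * (R.card : ℝ) ^ 2) := by
  classical
  have hQ0 : 0 ≤ ∏ p ∈ P, (p : ℝ) := prod_nonneg fun p _ => Nat.cast_nonneg _
  have hfac : ∀ p ∈ P, 0 ≤ 1 - 1 / (p : ℝ) := by
    intro p hp
    have hp1 := (hP p hp).1
    have hp2 : (2 : ℝ) ≤ p := by exact_mod_cast hp1.two_le
    have hx1 : 1 / (p : ℝ) ≤ 1 / 2 := one_div_le_one_div_of_le (by norm_num) hp2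
    linarith
  have hV0 : 0 ≤ ∏ p ∈ P, (1 - 1 / (p : ℝ)) := prod_nonneg fun p hp => hfac p hp
  have hexp : ∑ a ∈ range (∏ p ∈ P, p), (e2 (R.filter (fun h => ∀ p ∈ P, ¬ p ∣ a + h)) H : ℝ) =
      ∑ h ∈ Icc 1 H, ∑ x ∈ R, ∑ x' ∈ R, ∑ a ∈ range (∏ p ∈ P, p),
      (if ((∀ p ∈ P, ¬ p ∣ a + x) ∧ x + h ∈ R ∧ ∀ p ∈ P, ¬ p ∣ a + (x + h)) then (1 : ℝ) else 0) *
      (if ((∀ p ∈ P, ¬ p ∣ a + x') ∧ x' + h ∈ R ∧ ∀ p ∈ P, ¬ p ∣ a + (x' + h)) then
        (1 : ℝ) else 0) := by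
    have h1 : ∀ a ∈ range (∏ p ∈ P, p), (e2 (R.filter (fun h => ∀ p ∈ P, ¬ p ∣ a + h)) H : ℝ) =
        ∑ h ∈ Icc 1 H, ∑ x ∈ R, ∑ x' ∈ R,
      (if ((∀ p ∈ P, ¬ p ∣ a + x) ∧ x + h ∈ R ∧ ∀ p ∈ P, ¬ p ∣ a + (x + h)) then (1 : ℝ) else 0) *
      (if ((∀ p ∈ P, ¬ p ∣ a + x') ∧ x' + h ∈ R ∧ ∀ p ∈ P, ¬ p ∣ a + (x' + h)) then
        (1 : ℝ) else 0) := by
      intro a _
      unfold e2
      push_cast
      refine sum_congr rfl fun h _ => ?_
      rw [rp_surv, sq, sum_mul_sum]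
    rw [sum_congr rfl h1, sum_comm]
    refine sum_congr rfl fun h _ => ?_
    rw [sum_comm]
    refine sum_congr rfl fun x _ => ?_
    rw [sum_comm]
  rw [hexp]
  refine (sum_le_sum fun h hh => sum_le_sum fun x hx => sum_le_sum fun x' hx' =>
    term_le P w H hw hP hH R hR h (mem_Icc.1 hh).1 x x' hx hx').trans ?_
  have hA : ∑ h ∈ Icc 1 H, ∑ x ∈ R, ∑ x' ∈ R,
      ((if x + h ∈ R then (1 : ℝ) else 0) * (if x' + h ∈ R then (1 : ℝ) else 0)) = e2 R H := by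
    unfold e2
    push_cast
    refine sum_congr rfl fun h _ => ?_
    rw [rp_sum, sq, sum_mul_sum]
  have hB : ∑ h ∈ Icc 1 H, ∑ x ∈ R, ∑ x' ∈ R,
      (if x' = x then (if x + h ∈ R then (1 : ℝ) else 0) else 0) ≤ (R.card : ℝ) ^ 2 := by
    refine le_trans (sum_le_sum fun h _ => ?_) (sum_rp_le R H)
    rw [rp_sum]
    refine sum_le_sum fun x hx => ?_
    rw [sum_ite_eq' R x, if_pos hx]
  have hC : ∑ h ∈ Icc 1 H, ∑ x ∈ R, ∑ x' ∈ R,
      (if x' = x + h then (if x + h ∈ R then (1 : ℝ) else 0) else 0) ≤ (R.card : ℝ) ^ 2 := by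
    refine le_trans (sum_le_sum fun h _ => ?_) (sum_rp_le R H)
    rw [rp_sum]
    refine sum_le_sum fun x hx => ?_
    rw [sum_ite_eq' R (x + h)]
    split_ifs <;> norm_num
  have hD : ∑ h ∈ Icc 1 H, ∑ x ∈ R, ∑ x' ∈ R,
      (if x = x' + h then (if x' + h ∈ R then (1 : ℝ) else 0) else 0) ≤ (R.card : ℝ) ^ 2 := by
    refine le_trans (sum_le_sum fun h _ => ?_) (sum_rp_le R H)
    rw [rp_sum, sum_comm]
    refine sum_le_sum fun x' hx' => ?_
    rw [sum_ite_eq' R (x' + h)]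
    split_ifs <;> norm_num
  set V := ∏ p ∈ P, (1 - 1 / (p : ℝ)) with hV
  set Q := ∏ p ∈ P, (p : ℝ) with hQ
  simp only [← mul_sum, sum_add_distrib] at hA ⊢
  rw [hA]
  have hV2 : 0 ≤ V ^ 2 := pow_nonneg hV0 _
  have hV3 : 0 ≤ V ^ 3 := pow_nonneg hV0 _
  have hB' := mul_le_mul_of_nonneg_left hB hV2
  have hC' := mul_le_mul_of_nonneg_left hC hV3
  have hD' := mul_le_mul_of_nonneg_left hD hV3
  have h9 := mul_le_mul_of_nonneg_left (add_le_add (add_le_add hB' hC') hD')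
    (show 0 ≤ 2 * Q by positivity)
  calc _ = 2 * Q * (V ^ 4 * (e2 R H : ℝ)) + 2 * Q * (V ^ 2 * (∑ h ∈ Icc 1 H, ∑ x ∈ R, ∑ x' ∈ R,
      (if x' = x then (if x + h ∈ R then (1 : ℝ) else 0) else 0)) +
      V ^ 3 * (∑ h ∈ Icc 1 H, ∑ x ∈ R, ∑ x' ∈ R,
      (if x' = x + h then (if x + h ∈ R then (1 : ℝ) else 0) else 0)) +
      V ^ 3 * (∑ h ∈ Icc 1 H, ∑ x ∈ R, ∑ x' ∈ R,
      (if x = x' + h then (if x' + h ∈ R then (1 : ℝ) else 0) else 0))) := by ring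
    _ ≤ 2 * Q * (V ^ 4 * (e2 R H : ℝ)) + 2 * Q * (V ^ 2 * (R.card : ℝ) ^ 2 +
        V ^ 3 * (R.card : ℝ) ^ 2 + V ^ 3 * (R.card : ℝ) ^ 2) := by linarith
    _ = _ := by ring

end Pool.Agent.Lib.H92V
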