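import Pool.Agent.Lib.H92V.Defs

/-!
# Chunk V4A: correlations of at most four numbers
-/

open Finset Real
open Pool.Agent.Lib.H5C

namespace Pool.Agent.Lib.H92V

/-- At least `m` classes are forbidden when the elements of `X` are distinct modulo `p`. -/
theorem corr_inj (p : ℕ) (hp : p.Prime) (X : Finset ℕ)
    (hinj : ∀ x ∈ X, ∀ y ∈ X, x % p = y % p → x = y) :
    ((range p).filter (fun a => ∀ x ∈ X, ¬ p ∣ a + x)).card + X.card ≤ p := by
  classical
  have hp0 : 0 < p := hp.pos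
  have h1 : X.card ≤ ((range p).filter (fun a => ¬ ∀ x ∈ X, ¬ p ∣ a + x)).card := by
    refine card_le_card_of_injOn (fun x => (p - x % p) % p) (fun x hx => ?_) (fun x hx y hy hxy => ?_)
    · simp only [coe_filter, mem_range, Set.mem_ofPred_eq]
      refine ⟨Nat.mod_lt _ hp0, ?_⟩
      push Not
      refine ⟨x, hx, ?_⟩
      have hlt : x % p < p := Nat.mod_lt _ hp0
      apply Nat.dvd_of_mod_eq_zero
      rw [Nat.mod_add_mod]
      apply Nat.mod_eq_zero_of_dvd
      refine ⟨1 + x / p, ?_⟩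
      have h5 := Nat.div_add_mod x p
      rw [Nat.mul_add, Nat.mul_one]
      omega
    · have hx1 : x % p < p := Nat.mod_lt _ hp0
      have hy1 : y % p < p := Nat.mod_lt _ hp0
      apply hinj x hx y hy
      have hxy' : (p - x % p) % p = (p - y % p) % p := hxy
      have e0 : (p - 0) % p = 0 := by rw [Nat.sub_zero, Nat.mod_self]
      rcases Nat.eq_zero_or_pos (x % p) with h0 | h0
      · rcases Nat.eq_zero_or_pos (y % p) with h0' | h0'
        · rw [h0, h0']
        · have e1 : (p - y % p) % p = p - y % p := Nat.mod_eq_of_lt (by omega)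
          rw [h0, e0, e1] at hxy'
          omega
      · have e2 : (p - x % p) % p = p - x % p := Nat.mod_eq_of_lt (by omega)
        rcases Nat.eq_zero_or_pos (y % p) with h0' | h0'
        · rw [h0', e0, e2] at hxy'
          omega
        · have e1 : (p - y % p) % p = p - y % p := Nat.mod_eq_of_lt (by omega)
          rw [e1, e2] at hxy'
          omega
  have h2 := card_filter_add_card_filter_not (s := range p) (fun a => ∀ x ∈ X, ¬ p ∣ a + x)
  rw [card_range] at h2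
  omega

/-- Bound for the number of the admissible residues modulo one prime. -/
theorem corr_local (p : ℕ) (hp : p.Prime) (X : Finset ℕ) (hX0 : X.Nonempty) (hc : X.card ≤ 4) (d : ℕ)
    (hd : ∀ x ∈ X, ∀ y ∈ X, x < y → (y - x) ∣ d) :
    (((range p).filter (fun a => ∀ x ∈ X, ¬ p ∣ a + x)).card : ℝ) ≤
      (p : ℝ) * (1 - 1 / (p : ℝ)) ^ X.card * (if p ∣ d then ((1 - 1 / (p : ℝ))⁻¹) ^ 3 else 1) := by
  classical
  have hp2 : (2 : ℝ) ≤ p := by exact_mod_cast hp.two_le
  have hp0 : (0 : ℝ) < p := by linarith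
  have hx1 : 1 / (p : ℝ) ≤ 1 / 2 := one_div_le_one_div_of_le (by norm_num) hp2
  have hx2 : 0 < 1 / (p : ℝ) := by positivity
  have hx : 0 < 1 - 1 / (p : ℝ) := by linarith
  have hinv1 : 1 ≤ (1 - 1 / (p : ℝ))⁻¹ := by
    rw [one_le_inv₀ hx]
    linarith
  have hne : (p : ℝ) ≠ 0 := hp0.ne'
  by_cases hinj : ∀ x ∈ X, ∀ y ∈ X, x % p = y % p → x = y
  · have h1 := corr_inj p hp X hinj
    have h2 : (((range p).filter (fun a => ∀ x ∈ X, ¬ p ∣ a + x)).card : ℝ) + X.card ≤ p := by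
      exact_mod_cast h1
    have h3 : 1 + (X.card : ℝ) * (-(1 / (p : ℝ))) ≤ (1 + -(1 / (p : ℝ))) ^ X.card :=
      one_add_mul_le_pow (by linarith) _
    have h4 : (p : ℝ) - X.card ≤ (p : ℝ) * (1 - 1 / (p : ℝ)) ^ X.card := by
      have h5 : (p : ℝ) * (1 + (X.card : ℝ) * (-(1 / (p : ℝ)))) = p - X.card := by
        field_simp
        ring
      rw [← h5, show (1 - 1 / (p : ℝ)) = 1 + -(1 / (p : ℝ)) by ring]
      exact mul_le_mul_of_nonneg_left h3 hp0.le
    have h6 : 0 ≤ (p : ℝ) * (1 - 1 / (p : ℝ)) ^ X.card := by positivity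
    have h7 : (1 : ℝ) ≤ (if p ∣ d then ((1 - 1 / (p : ℝ))⁻¹) ^ 3 else 1) := by
      split_ifs
      · exact one_le_pow₀ hinv1
      · exact le_refl _
    calc (((range p).filter (fun a => ∀ x ∈ X, ¬ p ∣ a + x)).card : ℝ)
        ≤ (p : ℝ) * (1 - 1 / (p : ℝ)) ^ X.card := by linarith
      _ ≤ _ := le_mul_of_one_le_right h6 h7
  · push Not at hinj
    obtain ⟨x, hxX, y, hyX, hxy, hne'⟩ := hinj
    have hpd : p ∣ d := by
      rcases lt_or_gt_of_ne hne' with h | h
      · refine dvd_trans ?_ (hd x hxX y hyX h)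
        exact (Nat.modEq_iff_dvd' h.le).1 hxy
      · refine dvd_trans ?_ (hd y hyX x hxX h)
        exact (Nat.modEq_iff_dvd' h.le).1 hxy.symm
    rw [if_pos hpd]
    have h1 : ((range p).filter (fun a => ∀ x ∈ X, ¬ p ∣ a + x)).card ≤ p - 1 := by
      rw [← er1_card_one p hp x]
      apply card_le_card
      intro a ha
      rw [mem_filter] at ha ⊢
      exact ⟨ha.1, ha.2 x hxX⟩
    have h2 : (((range p).filter (fun a => ∀ x ∈ X, ¬ p ∣ a + x)).card : ℝ) ≤ (p : ℝ) - 1 := by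
      have h3 : (((range p).filter (fun a => ∀ x ∈ X, ¬ p ∣ a + x)).card : ℝ) ≤
        ((p - 1 : ℕ) : ℝ) := by exact_mod_cast h1
      rw [Nat.cast_sub hp.one_le] at h3
      simpa using h3
    refine h2.trans ?_
    have h4 : (p : ℝ) - 1 = p * (1 - 1 / (p : ℝ)) := by
      field_simp
    rw [h4, mul_assoc]
    apply mul_le_mul_of_nonneg_left _ hp0.le
    have hm1 : 1 ≤ X.card := hX0.card_pos
    have h5 : (1 - 1 / (p : ℝ)) ^ X.card * ((1 - 1 / (p : ℝ))⁻¹) ^ 3 =
        (1 - 1 / (p : ℝ)) * (((1 - 1 / (p : ℝ))⁻¹) ^ (4 - X.card)) := by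
      have hx' := hx.ne'
      have h6 : (1 - 1 / (p : ℝ)) ^ X.card * ((1 - 1 / (p : ℝ))⁻¹) ^ (X.card) = 1 := by
        rw [← mul_pow, mul_inv_cancel₀ hx', one_pow]
      have h7 : ((1 - 1 / (p : ℝ))⁻¹) ^ 3 = (1 - 1 / (p : ℝ)) * ((1 - 1 / (p : ℝ))⁻¹) ^ 4 := by
        rw [show (4 : ℕ) = 3 + 1 by norm_num, pow_succ _ 3]
        field_simp
      have h8 : ((1 - 1 / (p : ℝ))⁻¹) ^ 4 =
          ((1 - 1 / (p : ℝ))⁻¹) ^ (X.card) * ((1 - 1 / (p : ℝ))⁻¹) ^ (4 - X.card) := by
        rw [← pow_add]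
        congr 1
        omega
      rw [h7, h8]
      calc (1 - 1 / (p : ℝ)) ^ X.card * ((1 - 1 / (p : ℝ)) *
            (((1 - 1 / (p : ℝ))⁻¹) ^ (X.card) * ((1 - 1 / (p : ℝ))⁻¹) ^ (4 - X.card)))
          = ((1 - 1 / (p : ℝ)) ^ X.card * ((1 - 1 / (p : ℝ))⁻¹) ^ (X.card)) *
            ((1 - 1 / (p : ℝ)) * ((1 - 1 / (p : ℝ))⁻¹) ^ (4 - X.card)) := by ring
        _ = _ := by rw [h6, one_mul]
    rw [h5]
    exact le_mul_of_one_le_right hx.le (one_le_pow₀ hinv1)

/-- `m = |X|`, `V = ∏ (1 - 1/p)`. By `er1_prod` the left side is the product over `p ∈ P` of the number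
`p - ω_p` of the admissible residues, `ω_p` = number of the classes `-x mod p`. If `ω_p = m`:
`p - m ≤ p (1 - 1/p)^m` (Bernoulli). Otherwise `p` divides a difference of two elements of `X`, and
`p - ω_p ≤ p - 1 = p (1 - 1/p)^m (1 - 1/p)^(-(m-1))`, `m - 1 ≤ 3`. The (at most 6) differences are
`≤ H`; by `local_le` the product over `P` of the factors `(1 - 1/p)^(-3)` for `p` dividing one of them is
at most `∏_{x<x'} (exp (4 log H/w))^3 ≤ (1 + 1/64)^18 ≤ 2`. -/
theorem corr (P : Finset ℕ) (w H : ℕ) (hw : 2 ≤ w) (hP : ∀ p ∈ P, p.Prime ∧ w < p)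
    (hH : exp (4 * log H / w) ≤ 1 + 1 / 64) (X : Finset ℕ) (hX : ∀ x ∈ X, 1 ≤ x ∧ x ≤ H)
    (hc : X.card ≤ 4) :
    (((range (∏ p ∈ P, p)).filter (fun a => ∀ x ∈ X, ∀ p ∈ P, ¬ p ∣ a + x)).card : ℝ) ≤
      2 * ((∏ p ∈ P, (p : ℝ)) * (∏ p ∈ P, (1 - 1 / (p : ℝ))) ^ X.card) := by
  classical
  have hPp : 0 ≤ ∏ p ∈ P, (p : ℝ) := prod_nonneg fun p _ => Nat.cast_nonneg _
  rcases X.eq_empty_or_nonempty with hX0 | hX0
  · subst hX0
    simp only [notMem_empty, IsEmpty.forall_iff, implies_true, filter_true, card_range, card_empty,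
      pow_zero, mul_one]
    push_cast
    linarith
  set T := (X ×ˢ X).filter (fun x => x.1 < x.2) with hT
  set d := ∏ x ∈ T, (x.2 - x.1) with hdd
  have hTm : ∀ x ∈ T, x.1 ∈ X ∧ x.2 ∈ X ∧ x.1 < x.2 := by
    intro x hx
    rw [hT, mem_filter, mem_product] at hx
    exact ⟨hx.1.1, hx.1.2, hx.2⟩
  have hT6 : T.card ≤ 6 := by
    have h1 : T.card + T.card ≤ X.offDiag.card := by
      have h2 : (T.image Prod.swap).card = T.card := card_image_of_injective _ Prod.swap_injective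
      have h3 : Disjoint T (T.image Prod.swap) := by
        rw [disjoint_left]
        intro x hx hx'
        rw [mem_image] at hx'
        obtain ⟨z, hz, rfl⟩ := hx'
        have h4 := (hTm z hz).2.2
        have h5 := (hTm _ hx).2.2
        simp only [Prod.fst_swap, Prod.snd_swap] at h5
        omega
      calc T.card + T.card = (T ∪ T.image Prod.swap).card := by
            rw [card_union_of_disjoint h3, h2]
        _ ≤ X.offDiag.card := by
            apply card_le_card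
            intro x hx
            rw [mem_offDiag]
            rcases mem_union.1 hx with h | h
            · obtain ⟨h6, h7, h8⟩ := hTm x h
              exact ⟨h6, h7, h8.ne⟩
            · rw [mem_image] at h
              obtain ⟨z, hz, rfl⟩ := h
              obtain ⟨h6, h7, h8⟩ := hTm z hz
              exact ⟨h7, h6, h8.ne'⟩
    rw [offDiag_card] at h1
    have h2 : X.card * X.card - X.card ≤ 12 := by
      interval_cases X.card <;> norm_num
    omega
  have hd1 : 1 ≤ d := by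
    apply Nat.one_le_iff_ne_zero.2
    rw [hdd, prod_ne_zero_iff]
    intro x hx
    have := (hTm x hx).2.2
    omega
  have hH1 : 1 ≤ H := by
    obtain ⟨x, hx⟩ := hX0
    have := hX x hx
    omega
  have hlogH : 0 ≤ log H := log_nonneg (by exact_mod_cast hH1)
  have hdH : d ≤ H ^ 6 := by
    calc d ≤ ∏ x ∈ T, H := by
          apply prod_le_prod' fun x hx => ?_
          have h1 := hTm x hx
          have h2 := hX _ h1.2.1
          omega
      _ = H ^ T.card := prod_const _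
      _ ≤ H ^ 6 := Nat.pow_le_pow_right hH1 hT6
  have hlogd : log d ≤ 6 * log H := by
    have h1 : log (d : ℝ) ≤ log ((H : ℝ) ^ 6) := by
      apply log_le_log (by exact_mod_cast hd1)
      exact_mod_cast hdH
    rw [log_pow] at h1
    exact_mod_cast h1
  have hw0 : (0 : ℝ) < w := by
    have : 0 < w := by omega
    exact_mod_cast this
  have hloc := local_le P w d hw hP hd1
  have hloc2 : ∏ p ∈ P.filter (fun p => p ∣ d), (1 - 1 / (p : ℝ))⁻¹ ≤ (1 + 1 / 64 : ℝ) ^ 6 := by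
    refine hloc.trans ?_
    calc exp (4 * log d / w) ≤ exp (6 * (4 * log H / w)) := by
          apply exp_le_exp.2
          rw [← mul_div_assoc]
          apply div_le_div_of_nonneg_right _ hw0.le
          linarith
      _ = (exp (4 * log H / w)) ^ 6 := by
          rw [← exp_nat_mul]
          norm_num
      _ ≤ (1 + 1 / 64 : ℝ) ^ 6 := pow_le_pow_left₀ (exp_pos _).le hH 6
  have hpos : 0 ≤ ∏ p ∈ P.filter (fun p => p ∣ d), (1 - 1 / (p : ℝ))⁻¹ := by
    refine prod_nonneg fun p hp => ?_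
    have hp1 := (hP p (mem_filter.1 hp).1).1
    have hp2 : (2 : ℝ) ≤ p := by exact_mod_cast hp1.two_le
    have hx1 : 1 / (p : ℝ) ≤ 1 / 2 := one_div_le_one_div_of_le (by norm_num) hp2
    rw [inv_nonneg]
    linarith
  have h3 : (∏ p ∈ P.filter (fun p => p ∣ d), (1 - 1 / (p : ℝ))⁻¹) ^ 3 ≤ 2 := by
    calc (∏ p ∈ P.filter (fun p => p ∣ d), (1 - 1 / (p : ℝ))⁻¹) ^ 3
        ≤ ((1 + 1 / 64 : ℝ) ^ 6) ^ 3 := pow_le_pow_left₀ hpos hloc2 3
      _ ≤ 2 := by norm_num
  have hd2 : ∀ x ∈ X, ∀ y ∈ X, x < y → (y - x) ∣ d := by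
    intro x hx y hy hxy
    have : (x, y) ∈ T := by
      rw [hT, mem_filter, mem_product]
      exact ⟨⟨hx, hy⟩, hxy⟩
    exact dvd_prod_of_mem (fun x : ℕ × ℕ => x.2 - x.1) this
  have hcomm : (range (∏ p ∈ P, p)).filter (fun a => ∀ x ∈ X, ∀ p ∈ P, ¬ p ∣ a + x) =
      (range (∏ p ∈ P, p)).filter (fun a => ∀ p ∈ P, ∀ x ∈ X, ¬ p ∣ a + x) := by
    apply filter_congr
    intro a _
    exact ⟨fun h p hp x hx => h x hx p hp, fun h x hx p hp => h p hp x hx⟩
  rw [hcomm, er1_prod P (fun p hp => (hP p hp).1) (fun p a => ∀ x ∈ X, ¬ p ∣ a + x) (fun p a => by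
    show (∀ x ∈ X, ¬ p ∣ a + p + x) = (∀ x ∈ X, ¬ p ∣ a + x)
    apply propext
    refine forall_congr' fun x => ?_
    rw [show a + p + x = a + x + p by ring, Nat.dvd_add_self_right])]
  calc ∏ p ∈ P, (((range p).filter (fun a => ∀ x ∈ X, ¬ p ∣ a + x)).card : ℝ)
      ≤ ∏ p ∈ P, ((p : ℝ) * (1 - 1 / (p : ℝ)) ^ X.card *
          (if p ∣ d then ((1 - 1 / (p : ℝ))⁻¹) ^ 3 else 1)) := by
        refine prod_le_prod (fun p _ => Nat.cast_nonneg _) fun p hp => ?_
        exact corr_local p (hP p hp).1 X hX0 hc d hd2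
    _ = ((∏ p ∈ P, (p : ℝ)) * (∏ p ∈ P, (1 - 1 / (p : ℝ))) ^ X.card) *
          (∏ p ∈ P.filter (fun p => p ∣ d), (1 - 1 / (p : ℝ))⁻¹) ^ 3 := by
        rw [prod_mul_distrib, prod_mul_distrib, prod_pow]
        congr 1
        rw [← prod_pow, prod_filter]
    _ ≤ ((∏ p ∈ P, (p : ℝ)) * (∏ p ∈ P, (1 - 1 / (p : ℝ))) ^ X.card) * 2 := by
        apply mul_le_mul_of_nonneg_left h3
        apply mul_nonneg hPp
        apply pow_nonneg
        refine prod_nonneg fun p hp => ?_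
        have hp1 := (hP p hp).1
        have hp2 : (2 : ℝ) ≤ p := by exact_mod_cast hp1.two_le
        have hx1 : 1 / (p : ℝ) ≤ 1 / 2 := one_div_le_one_div_of_le (by norm_num) hp2
        linarith
    _ = _ := by ring

end Pool.Agent.Lib.H92V
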