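import Pool.Agent.Lib.H92V.V4

/-!
# Chunk V5: a residue class with the right number of survivors and small energy
-/

open Finset Real
open Pool.Agent.Lib.H5C

namespace Pool.Agent.Lib.H92V

/-- As `H5C.average` (copy its proof), with `e2` in place of the number of the pairs of `C`: the
variance part has total weight `≤ M/8`, and by `sum_e2` the `a` with `e2 > 8 (..)` are at most `M/8`
(if the bound `(..)` is `0` then `e2 = 0` for all `a`). -/
theorem average_en (P : Finset ℕ) (w H : ℕ) (hw : 2 ≤ w) (hP : ∀ p ∈ P, p.Prime ∧ w < p)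
    (R : Finset ℕ) (hR : ∀ h ∈ R, 1 ≤ h ∧ h ≤ H)
    (hH : exp (4 * log H / w) ≤ 1 + 1 / 64)
    (hμ : 64 ≤ (∏ p ∈ P, (1 - 1 / (p : ℝ))) * R.card) :
    ∃ a < ∏ p ∈ P, p,
      (∏ p ∈ P, (1 - 1 / (p : ℝ))) * R.card / 2 ≤
        ((R.filter (fun h => ∀ p ∈ P, ¬ p ∣ a + h)).card : ℝ) ∧
      ((R.filter (fun h => ∀ p ∈ P, ¬ p ∣ a + h)).card : ℝ) ≤
        2 * ((∏ p ∈ P, (1 - 1 / (p : ℝ))) * R.card) ∧
      (e2 (R.filter (fun h => ∀ p ∈ P, ¬ p ∣ a + h)) H : ℝ) ≤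
        8 * (2 * (∏ p ∈ P, (1 - 1 / (p : ℝ))) ^ 4 * e2 R H +
        4 * (∏ p ∈ P, (1 - 1 / (p : ℝ))) ^ 3 * (R.card : ℝ) ^ 2 +
        2 * (∏ p ∈ P, (1 - 1 / (p : ℝ))) ^ 2 * (R.card : ℝ) ^ 2) := by
  have hE := sum_e2 P w H hw hP hH R hR
  simp only [er2_card]
  set V : ℝ := ∏ p ∈ P, (1 - 1 / (p : ℝ)) with hV
  set M : ℝ := ∏ p ∈ P, (p : ℝ) with hM
  have hM0 : 0 < M := Finset.prod_pos fun p hp => by exact_mod_cast (hP p hp).1.pos
  have hV0 : 0 < V := by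
    apply Finset.prod_pos
    intro p hp
    have : (1 : ℝ) < p := by exact_mod_cast (hP p hp).1.one_lt
    have h2 : 1 / (p : ℝ) < 1 := by
      rw [div_lt_one (by linarith)]
      exact this
    linarith
  have hcardM : (((range (∏ p ∈ P, p)).card : ℕ) : ℝ) = M := by
    rw [Finset.card_range]
    push_cast
    rfl
  set μ : ℝ := V * R.card with hμd
  have hμ0 : 0 < μ := by linarith
  have hR0 : (0 : ℝ) < R.card := by
    by_contra h
    have h1 : μ ≤ 0 := mul_nonpos_of_nonneg_of_nonpos hV0.le (not_lt.1 h)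
    linarith
  obtain ⟨B, hB⟩ : ∃ B : ℝ, B = 2 * V ^ 4 * e2 R H + 4 * V ^ 3 * (R.card : ℝ) ^ 2 +
    2 * V ^ 2 * (R.card : ℝ) ^ 2 := ⟨_, rfl⟩
  rw [← hB] at hE ⊢
  have hB0 : 0 < B := by
    have h1 : (0 : ℝ) ≤ 2 * V ^ 4 * e2 R H := by positivity
    have h2 : (0 : ℝ) < 4 * V ^ 3 * (R.card : ℝ) ^ 2 := by positivity
    have h3 : (0 : ℝ) < 2 * V ^ 2 * (R.card : ℝ) ^ 2 := by positivity
    rw [hB]
    linarith
  -- first moment
  have hS1 : ∑ a ∈ range (∏ p ∈ P, p), ∑ h ∈ R, er2_I P a h = M * μ := by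
    rw [Finset.sum_comm]
    rw [Finset.sum_congr rfl fun h _ => er2_single P (fun p hp => (hP p hp).1) h]
    rw [Finset.sum_const, nsmul_eq_mul, hμd]
    ring
  -- second moment
  have hS2 : ∑ a ∈ range (∏ p ∈ P, p), (∑ h ∈ R, er2_I P a h) ^ 2 ≤
      M * μ ^ 2 * (1 + 1 / 64) + M * μ := by
    have e1 : ∀ a ∈ range (∏ p ∈ P, p), (∑ h ∈ R, er2_I P a h) ^ 2 =
        ∑ h ∈ R, ∑ h' ∈ R, er2_I P a h * er2_I P a h' := by
      intro a _
      rw [sq, Finset.sum_mul_sum]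
    rw [Finset.sum_congr rfl e1, Finset.sum_comm]
    have e2' : ∀ h ∈ R, ∑ a ∈ range (∏ p ∈ P, p), ∑ h' ∈ R, er2_I P a h * er2_I P a h' ≤
        (R.card : ℝ) * (M * V ^ 2 * (1 + 1 / 64)) + M * V := by
      intro h hh
      rw [Finset.sum_comm]
      calc ∑ h' ∈ R, ∑ a ∈ range (∏ p ∈ P, p), er2_I P a h * er2_I P a h'
          ≤ ∑ h' ∈ R, (M * V ^ 2 * (1 + 1 / 64) + if h = h' then M * V else 0) :=
            Finset.sum_le_sum fun h' hh' =>
              er2_pair P w H hw hP hH h h' (hR h hh) (hR h' hh')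
        _ = (R.card : ℝ) * (M * V ^ 2 * (1 + 1 / 64)) + M * V := by
            rw [Finset.sum_add_distrib, Finset.sum_const, nsmul_eq_mul, Finset.sum_ite_eq,
              if_pos hh]
    calc ∑ h ∈ R, ∑ a ∈ range (∏ p ∈ P, p), ∑ h' ∈ R, er2_I P a h * er2_I P a h'
        ≤ ∑ h ∈ R, ((R.card : ℝ) * (M * V ^ 2 * (1 + 1 / 64)) + M * V) :=
          Finset.sum_le_sum e2'
      _ = M * μ ^ 2 * (1 + 1 / 64) + M * μ := by
          rw [Finset.sum_const, nsmul_eq_mul, hμd]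
          ring
  have hvar : ∑ a ∈ range (∏ p ∈ P, p), ((∑ h ∈ R, er2_I P a h) - μ) ^ 2 ≤
      M * μ ^ 2 / 64 + M * μ := by
    have e : ∀ a ∈ range (∏ p ∈ P, p), ((∑ h ∈ R, er2_I P a h) - μ) ^ 2 =
        (∑ h ∈ R, er2_I P a h) ^ 2 - 2 * μ * (∑ h ∈ R, er2_I P a h) + μ ^ 2 := by
      intro a _
      ring
    rw [Finset.sum_congr rfl e, Finset.sum_add_distrib, Finset.sum_sub_distrib,
      ← Finset.mul_sum, hS1, Finset.sum_const, nsmul_eq_mul, hcardM]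
    nlinarith [hS2]
  by_contra hcon
  push Not at hcon
  have hbad : ∀ a ∈ range (∏ p ∈ P, p),
      (1 : ℝ) ≤ 4 / μ ^ 2 * ((∑ h ∈ R, er2_I P a h) - μ) ^ 2 +
        1 / (8 * B) * (e2 (R.filter (fun h => ∀ p ∈ P, ¬ p ∣ a + h)) H : ℝ) := by
    intro a ha
    have hthird : 0 ≤ 1 / (8 * B) *
        (e2 (R.filter (fun h => ∀ p ∈ P, ¬ p ∣ a + h)) H : ℝ) := by
      positivity
    have hfirst : 0 ≤ 4 / μ ^ 2 * ((∑ h ∈ R, er2_I P a h) - μ) ^ 2 := by positivity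
    by_cases h1 : μ / 2 ≤ ∑ h ∈ R, er2_I P a h
    · by_cases h2 : ∑ h ∈ R, er2_I P a h ≤ 2 * μ
      · have h3 := hcon a (Finset.mem_range.1 ha) h1 h2
        have : 1 ≤ 1 / (8 * B) *
            (e2 (R.filter (fun h => ∀ p ∈ P, ¬ p ∣ a + h)) H : ℝ) := by
          rw [one_div, inv_mul_eq_div, one_le_div (by positivity)]
          exact h3.le
        linarith
      · push Not at h2
        have : 1 ≤ 4 / μ ^ 2 * ((∑ h ∈ R, er2_I P a h) - μ) ^ 2 := by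
          rw [div_mul_eq_mul_div, one_le_div (by positivity)]
          nlinarith
        linarith
    · push Not at h1
      have : 1 ≤ 4 / μ ^ 2 * ((∑ h ∈ R, er2_I P a h) - μ) ^ 2 := by
        rw [div_mul_eq_mul_div, one_le_div (by positivity)]
        nlinarith
      linarith
  have hsum := Finset.sum_le_sum hbad
  rw [Finset.sum_const, nsmul_eq_mul, mul_one, hcardM, Finset.sum_add_distrib,
    ← Finset.mul_sum, ← Finset.mul_sum] at hsum
  have b1 : 4 / μ ^ 2 * ∑ a ∈ range (∏ p ∈ P, p), ((∑ h ∈ R, er2_I P a h) - μ) ^ 2 ≤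
      M / 8 := by
    calc 4 / μ ^ 2 * ∑ a ∈ range (∏ p ∈ P, p), ((∑ h ∈ R, er2_I P a h) - μ) ^ 2
        ≤ 4 / μ ^ 2 * (M * μ ^ 2 / 64 + M * μ) :=
          mul_le_mul_of_nonneg_left hvar (by positivity)
      _ = M / 16 + 4 * M / μ := by
          field_simp
          ring
      _ ≤ M / 16 + M / 16 := by
          have h16 : 4 * M / μ ≤ M / 16 := by
            rw [div_le_div_iff₀ hμ0 (by norm_num)]
            nlinarith
          linarith
      _ = M / 8 := by ring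
  have b2 : 1 / (8 * B) * ∑ a ∈ range (∏ p ∈ P, p),
      (e2 (R.filter (fun h => ∀ p ∈ P, ¬ p ∣ a + h)) H : ℝ) ≤ M / 8 := by
    calc 1 / (8 * B) * ∑ a ∈ range (∏ p ∈ P, p),
          (e2 (R.filter (fun h => ∀ p ∈ P, ¬ p ∣ a + h)) H : ℝ)
        ≤ 1 / (8 * B) * (M * B) := mul_le_mul_of_nonneg_left hE (by positivity)
      _ = M / 8 := by
          field_simp
  linarith

end Pool.Agent.Lib.H92V
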