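import Pool.Agent.Lib.H92V.V3
import Pool.Agent.Lib.H92V.V5

/-!
# Chunk V6: Erdős-Rankin sieve with small additive energy
-/

open Finset Real
open Pool.Agent.Lib.H5C

namespace Pool.Agent.Lib.H92V

/-- arithmetic of the bounds of chunk V6 -/
theorem v6_arith (V r E H l t C C3 A : ℝ) (hV : 0 < V) (hr : 0 ≤ r) (hH : 0 ≤ H)
    (hl : 0 < l) (ht : 0 ≤ t) (hC : 0 ≤ C) (hC3 : 0 ≤ C3) (hA : 0 < A) (v2 : V ≤ 96000 * A)
    (h4 : H / l ≤ t / A) (hVr : V * r ≤ 96000 * C * t) (hEn : E ≤ C3 * H ^ 3 / l ^ 4)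
    (hl1 : 96000 * l ≤ t) (hHy : H ≤ t ^ 2) :
    8 * (2 * V ^ 4 * E + 4 * V ^ 3 * r ^ 2 + 2 * V ^ 2 * r ^ 2) * H ≤
      (16 * C3 * 96000 ^ 4 + 48 * (96000 * C) ^ 2) * t ^ 4 := by
  have hVH : V * (H / l) ≤ 96000 * t := by
    calc V * (H / l) ≤ (96000 * A) * (t / A) := by gcongr
      _ = 96000 * t := by field_simp
  have hVH0 : 0 ≤ V * (H / l) := by positivity
  have T1 : V ^ 4 * E * H ≤ C3 * (96000 * t) ^ 4 := by
    calc V ^ 4 * E * H ≤ V ^ 4 * (C3 * H ^ 3 / l ^ 4) * H := by gcongr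
      _ = C3 * (V * (H / l)) ^ 4 := by field_simp
      _ ≤ C3 * (96000 * t) ^ 4 := by gcongr
  have hsq : (V * r) ^ 2 ≤ (96000 * C * t) ^ 2 := pow_le_pow_left₀ (by positivity) hVr 2
  have T2 : V ^ 3 * r ^ 2 * H ≤ (96000 * C * t) ^ 2 * t ^ 2 := by
    calc V ^ 3 * r ^ 2 * H = (V * r) ^ 2 * ((V * (H / l)) * l) := by field_simp
      _ ≤ (96000 * C * t) ^ 2 * ((96000 * t) * l) := by gcongr
      _ = (96000 * C * t) ^ 2 * (t * (96000 * l)) := by ring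
      _ ≤ (96000 * C * t) ^ 2 * (t * t) := by gcongr
      _ = _ := by ring
  have T3 : V ^ 2 * r ^ 2 * H ≤ (96000 * C * t) ^ 2 * t ^ 2 := by
    calc V ^ 2 * r ^ 2 * H = (V * r) ^ 2 * H := by ring
      _ ≤ (96000 * C * t) ^ 2 * t ^ 2 := by gcongr
  have e1 : 8 * (2 * V ^ 4 * E + 4 * V ^ 3 * r ^ 2 + 2 * V ^ 2 * r ^ 2) * H =
      16 * (V ^ 4 * E * H) + 32 * (V ^ 3 * r ^ 2 * H) + 16 * (V ^ 2 * r ^ 2 * H) := by ring
  have e2 : (16 * C3 * 96000 ^ 4 + 48 * (96000 * C) ^ 2) * t ^ 4 =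
      16 * (C3 * (96000 * t) ^ 4) + 32 * ((96000 * C * t) ^ 2 * t ^ 2) +
        16 * ((96000 * C * t) ^ 2 * t ^ 2) := by ring
  rw [e1, e2]
  linarith

/-- large `y` -/
theorem v6_large (κ : ℝ) (hκ : 0 < κ) (y : ℕ) (hy : exp (96000 * 120 / κ + 1) ≤ y) :
    96000 * log (y : ℝ) ≤ κ * y ∧ (y : ℝ) * (log y) ^ 2 ≤ (κ * y) ^ 2 := by
  have hy0 : (0 : ℝ) < y := (exp_pos _).trans_le hy
  obtain ⟨L, hL⟩ : ∃ L : ℝ, L = log (y : ℝ) := ⟨_, rfl⟩
  have hL1 : 96000 * 120 / κ + 1 ≤ L := by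
    rw [hL, Real.le_log_iff_exp_le hy0]
    exact hy
  have hq : 0 < 96000 * 120 / κ := by positivity
  have hLone : 1 ≤ L := by linarith
  have hκL : 96000 * 120 ≤ κ * L := by
    have h1 : 96000 * 120 / κ ≤ L := by linarith
    rw [div_le_iff₀ hκ] at h1
    linarith
  have h5 : L ^ 5 / 120 ≤ y := by
    have h1 := Real.pow_div_factorial_le_exp L (by linarith) 5
    have h2 : exp L = y := by rw [hL, Real.exp_log hy0]
    rw [h2] at h1
    have h3 : ((Nat.factorial 5 : ℕ) : ℝ) = 120 := by norm_num [Nat.factorial]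
    rw [h3] at h1
    exact h1
  have hL3 : 1 ≤ L ^ 3 := one_le_pow₀ hLone
  rw [← hL]
  constructor
  · calc 96000 * L = (96000 * 120) * L / 120 := by ring
      _ ≤ (κ * L) * (L * L ^ 3) / 120 := by
          have h1 : L ≤ L * L ^ 3 := le_mul_of_one_le_right (by linarith) hL3
          have h2 : (96000 * 120) * L ≤ (κ * L) * (L * L ^ 3) := by
            apply mul_le_mul hκL h1 (by linarith) (by positivity)
          linarith
      _ = κ * (L ^ 5 / 120) := by ring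
      _ ≤ κ * y := by gcongr
  · have h6 : L ^ 2 ≤ κ ^ 2 * y := by
      calc L ^ 2 ≤ (κ * L) ^ 2 * L ^ 3 / 120 := by
            have h1 : (96000 * 120 : ℝ) ^ 2 ≤ (κ * L) ^ 2 := pow_le_pow_left₀ (by norm_num) hκL 2
            have h2 : (120 : ℝ) * L ^ 2 ≤ (κ * L) ^ 2 * L ^ 3 := by
              have h7 : L ^ 2 ≤ L ^ 3 := pow_le_pow_right₀ hLone (by norm_num)
              apply mul_le_mul _ h7 (by positivity) (by positivity)
              refine le_trans ?_ h1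
              norm_num
            linarith
        _ = κ ^ 2 * (L ^ 5 / 120) := by ring
        _ ≤ κ ^ 2 * y := by gcongr
    calc (y : ℝ) * L ^ 2 ≤ y * (κ ^ 2 * y) := by gcongr
      _ = (κ * y) ^ 2 := by ring

/-- As `H5C.er` (`ER7b.lean`, copy its proof), with `average_en` in place of `average`. `V` = product
over `PZ`, `R = RE`, `H = hE κ y`, `ER7b_arith`: `V |R| ≍ κ y`, `V H/log y ≍ κ y`. Energy, times `H`:
`V⁴ e2 R H · H ≤ V⁴ C H⁴/(log y)⁴ ≤ C' (κ y)⁴` (`e2_le_en`, `en_RE`); `V³ |R|² H ≤ C (κ y)² (V H)`,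
`V H ≤ C κ y log y ≤ (κ y)²` for large `y`; `V² |R|² H ≤ C (κ y)² y (log y)² ≤ (κ y)⁴`
(`hE κ y ≤ y (log y)²`). -/
theorem er_en : ∃ c1 C1 : ℝ, 0 < c1 ∧ 0 < C1 ∧ ∀ κ : ℝ, 0 < κ → κ ≤ 1 → ∃ y₀ : ℕ, ∀ y : ℕ,
    y₀ ≤ y → ∀ (D : Finset ℕ) (p1 : ℕ), OKD y D p1 → ∃ a : ℕ,
      c1 * (κ * y) ≤ (SE κ y (MM y D p1) a).card ∧
      ((SE κ y (MM y D p1) a).card : ℝ) ≤ C1 * (κ * y) ∧
      (e2 (SE κ y (MM y D p1) a) (hE κ y) : ℝ) * hE κ y ≤ C1 * (κ * y) ^ 4 := by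
  obtain ⟨c, hc, hlow⟩ := re_lower
  obtain ⟨C, hC, hup⟩ := re_upper
  obtain ⟨C3, hC3, hen⟩ := en_RE
  refine ⟨8 / 1000 * c, 192000 * C + (16 * C3 * 96000 ^ 4 + 48 * (96000 * C) ^ 2), by positivity,
    by positivity, fun κ hκ hκ1 => ?_⟩
  obtain ⟨y1, hy1⟩ := er_sizes κ hκ hκ1
  obtain ⟨y2, hy2⟩ := hlow κ hκ hκ1
  obtain ⟨y3, hy3⟩ := hup κ hκ hκ1
  obtain ⟨y4, hy4⟩ := hen κ hκ hκ1
  obtain ⟨y5, hy5⟩ := er_crt κ hκ hκ1
  obtain ⟨y6, hy6⟩ := exists_nat_ge (64 / (16 / 1000 * c * κ))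
  obtain ⟨y7, hy7⟩ := exists_nat_ge (exp (96000 * 120 / κ + 1))
  refine ⟨max (max (max y1 y2) (max y3 y4)) (max (max y5 (y6 + 1)) y7), fun y hy D p1 hD => ?_⟩
  simp only [max_le_iff] at hy
  obtain ⟨⟨⟨hya, hyb⟩, hyc, hyd⟩, ⟨hye, hyf⟩, hyg⟩ := hy
  obtain ⟨s1, s2, s3, s4, s5, s6, s7, s8, s9, s10, s11, s12, s13, s14, s15, s16, s17, s18⟩ :=
    hy1 y hya
  have hR1 := hy2 y hyb D p1 hD
  have hR2 := hy3 y hyc D p1 hD
  have hR3 := hy4 y hyd D p1 hD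
  have hcrt := hy5 y hye D p1 hD
  obtain ⟨g1, g2⟩ := v6_large κ hκ y (hy7.trans (by exact_mod_cast hyg))
  have hy0 : (0 : ℝ) < y := by
    have : 0 < y := by omega
    exact_mod_cast this
  obtain ⟨v1, v2⟩ := pz_bounds y p1 s4 s5
  have hlz : 0 < log (zE y : ℝ) := lt_of_lt_of_le (by positivity) s14
  obtain ⟨A, hA, c1, c2, c3, c4⟩ := ER7b_arith κ y (log y) (log (log y)) (log (log (log y)))
    (hE κ y) (log (wE y)) (log (zE y)) (∏ p ∈ PZ y p1, (1 - 1 / (p : ℝ))) hκ hy0 (by linarith)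
    (by linarith) (by linarith) hlz s11 s12 s14 s15 s16 s17 v1 v2
  set V : ℝ := ∏ p ∈ PZ y p1, (1 - 1 / (p : ℝ)) with hV
  set R := RE κ y D p1 with hR
  have hV0 : 0 < V := lt_of_lt_of_le (by positivity) c1
  have hVR1 : 16 / 1000 * c * (κ * y) ≤ V * R.card := by
    calc 16 / 1000 * c * (κ * y) = (16 / 500 * A) * (c * (κ * y / (2 * A))) := by
          field_simp
          ring
      _ ≤ V * (c * (hE κ y / log y)) := by gcongr
      _ ≤ V * R.card := by gcongr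
  have hVR2 : V * R.card ≤ 96000 * C * (κ * y) := by
    calc V * R.card ≤ V * (C * (hE κ y / log y)) := by gcongr
      _ ≤ (96000 * A) * (C * (κ * y / A)) := by gcongr
      _ = _ := by field_simp
  have hμ : 64 ≤ V * R.card := by
    refine le_trans ?_ hVR1
    have h1 : 64 / (16 / 1000 * c * κ) ≤ (y : ℝ) := by
      refine hy6.trans ?_
      exact_mod_cast (by omega : y6 ≤ y)
    rw [div_le_iff₀ (by positivity)] at h1
    linarith
  obtain ⟨a1, -, d1, d2, d3⟩ := average_en (PZ y p1) (wE y) (hE κ y) s4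
    (fun p hp => by
      unfold PZ at hp
      rw [mem_filter, mem_Ioc] at hp
      exact ⟨hp.2.1, hp.1.1⟩) R
    (fun h hh => by
      rw [hR] at hh
      unfold RE at hh
      rw [mem_filter, mem_Icc] at hh
      exact hh.1) s18 hμ
  rw [← hV] at d1 d2 d3
  obtain ⟨a, ha⟩ := hcrt a1
  have hEn : (e2 R (hE κ y) : ℝ) ≤ C3 * (hE κ y : ℝ) ^ 3 / (log y) ^ 4 := by
    refine le_trans ?_ hR3
    exact_mod_cast e2_le_en R (hE κ y)
  have harith := v6_arith V R.card (e2 R (hE κ y)) (hE κ y) (log y) (κ * y) C C3 A hV0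
    (Nat.cast_nonneg _) (Nat.cast_nonneg _) (by linarith) (by positivity) hC.le hC3.le hA c2 c4
    hVR2 hEn g1 (s10.trans g2)
  refine ⟨a, ?_, ?_, ?_⟩
  · rw [ha]
    refine le_trans ?_ d1
    linarith
  · rw [ha]
    refine d2.trans ?_
    have : 0 ≤ (16 * C3 * 96000 ^ 4 + 48 * (96000 * C) ^ 2) * (κ * y) := by positivity
    linarith
  · rw [ha]
    calc (e2 (R.filter (fun h => ∀ p ∈ PZ y p1, ¬ p ∣ a1 + h)) (hE κ y) : ℝ) * hE κ y
        ≤ 8 * (2 * V ^ 4 * e2 R (hE κ y) + 4 * V ^ 3 * (R.card : ℝ) ^ 2 +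
          2 * V ^ 2 * (R.card : ℝ) ^ 2) * hE κ y :=
          mul_le_mul_of_nonneg_right d3 (Nat.cast_nonneg _)
      _ ≤ (16 * C3 * 96000 ^ 4 + 48 * (96000 * C) ^ 2) * (κ * y) ^ 4 := harith
      _ ≤ (192000 * C + (16 * C3 * 96000 ^ 4 + 48 * (96000 * C) ^ 2)) * (κ * y) ^ 4 := by
          have : 0 ≤ 192000 * C * (κ * y) ^ 4 := by positivity
          linarith

end Pool.Agent.Lib.H92V
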