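import Pool.Agent.Lib.H92V.Defs

/-!
# Chunk V7: many differences, abstract form
-/

open Finset Real
open Pool.Agent.Lib.H5C

namespace Pool.Agent.Lib.H92V

/-- The first two primes give a difference. -/
theorem V7_exists (R : Finset ℕ) (a M H t : ℕ) (hRH : ∀ h ∈ R, 1 ≤ h ∧ h ≤ H)
    (ht : 2 ≤ (R.filter (fun h => (a + h + M * t).Prime)).card) :
    ∃ h ∈ Icc 1 H, GV R a M h t := by
  set S := R.filter (fun h => (a + h + M * t).Prime) with hS
  have hSne : S.Nonempty := by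
    rw [← card_pos]
    omega
  set x := S.min' hSne with hx
  have hxS : x ∈ S := min'_mem _ _
  have hS2 : (S.erase x).Nonempty := by
    rw [← card_pos, card_erase_of_mem hxS]
    omega
  set y := (S.erase x).min' hS2 with hy
  have hyS' : y ∈ S.erase x := min'_mem _ _
  have hyS : y ∈ S := mem_of_mem_erase hyS'
  have hyx : y ≠ x := ne_of_mem_erase hyS'
  have hxy : x ≤ y := min'_le _ _ hyS
  have hlt : x < y := lt_of_le_of_ne hxy hyx.symm
  have hxR := (mem_filter.mp hxS).1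
  have hyR := (mem_filter.mp hyS).1
  have hxp := (mem_filter.mp hxS).2
  have hyp := (mem_filter.mp hyS).2
  have hyH := (hRH y hyR).2
  refine ⟨y - x, ?_, x, hxR, ?_, hxp, ?_, ?_⟩
  · rw [mem_Icc]
    omega
  · have : x + (y - x) = y := by omega
    rwa [this]
  · have : x + (y - x) = y := by omega
    rwa [this]
  · intro z hz hxz hzy hzp
    have hzS : z ∈ S := mem_filter.mpr ⟨hz, hzp⟩
    have hzS' : z ∈ S.erase x := mem_erase.mpr ⟨by omega, hzS⟩
    have := min'_le _ _ hzS'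
    rw [← hy] at this
    omega

theorem V7_sum_biUnion_le (s : Finset ℕ) (f : ℕ → Finset ℕ) (g : ℕ → ℝ) (hg : ∀ t, 0 ≤ g t) :
    ∑ t ∈ s.biUnion f, g t ≤ ∑ h ∈ s, ∑ t ∈ f h, g t := by
  induction s using Finset.induction_on with
  | empty => simp
  | insert a s ha ih =>
    rw [Finset.biUnion_insert, Finset.sum_insert ha]
    have h1 := Finset.sum_union_inter (s₁ := f a) (s₂ := s.biUnion f) (f := g)
    have h2 : 0 ≤ ∑ t ∈ f a ∩ s.biUnion f, g t := Finset.sum_nonneg fun t _ => hg t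
    linarith

open Classical in
/-- Every `t` with at least two primes among the forms satisfies `GV R a M h t` for some `h ∈ Icc 1 H`
(the first two primes). By `second_moment` (`k = 1`, `Cl = 0`) these `t` have mass `≥ G/(2B) ≥ m/(8B)`.
`mass h := ∑_{t, GV h t} g t ≤ ∑_{x ∈ R, x + h ∈ R} ∑_{both prime} g ≤ rp R h Cu u² m`.
`𝓗 = {h : m/(16 B H) ≤ mass h}`: `∑_{h ∈ 𝓗} mass h ≥ m/(16B)`, and
`≤ Cu u² m √|𝓗| √(e2 R H)`. So `|𝓗| ≥ 1/((16 B Cu)² u⁴ e2) ≥ H/((16 B Cu)² C4)` (if `m > 0`); and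
`mass h ≤ E0 #{t : GV h t}`. -/
theorem v7 (R : Finset ℕ) (a M T H : ℕ) (g : ℕ → ℝ) (hg : ∀ t, 0 ≤ g t)
    (hRH : ∀ h ∈ R, 1 ≤ h ∧ h ≤ H) (hH : 0 < H)
    (m E0 cL Cu u P B C4 : ℝ) (hm : 0 < m) (hu : 0 ≤ u) (hCu : 0 < Cu) (hP : 0 ≤ P) (hB0 : 0 < B)
    (hG1 : m / 4 ≤ ∑ t ∈ Icc 1 T, g t) (hG2 : ∑ t ∈ Icc 1 T, g t ≤ 2 * m)
    (hA : ∀ h ∈ R, cL * u * m ≤ ∑ t ∈ (Icc 1 T).filter (fun t => (a + h + M * t).Prime), g t)
    (hB : ∀ h ∈ R, ∑ t ∈ (Icc 1 T).filter (fun t => (a + h + M * t).Prime), g t ≤ Cu * u * m)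
    (hC : ∀ h ∈ R, ∀ h' ∈ R, h ≠ h' → ∑ t ∈ (Icc 1 T).filter (fun t =>
      (a + h + M * t).Prime ∧ (a + h' + M * t).Prime), g t ≤ Cu * u ^ 2 * m)
    (hR1 : 4 * ((1 : ℝ) + 1) ≤ R.card * (cL * u)) (hR2 : (R.card : ℝ) * u ≤ P * (1 + 1))
    (hBP : 4 * Cu * (P + P ^ 2) ≤ B) (hC4 : 0 < C4)
    (hen : (e2 R H : ℝ) * H * u ^ 4 ≤ C4) (hE : ∀ t, g t ≤ E0) :
    ∃ S : Finset ℕ, S ⊆ Icc 1 H ∧ 1 / ((16 * B * Cu) ^ 2 * C4) * H ≤ (S.card : ℝ) ∧
      ∀ h ∈ S, m ≤ 16 * B * H * (E0 * (((Icc 1 T).filter (fun t => GV R a M h t)).card : ℝ)) := by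
  set G : ℝ := ∑ t ∈ Icc 1 T, g t with hG
  have hmG : m ≤ 4 * G := by linarith
  have hG0 : 0 ≤ G := Finset.sum_nonneg fun t _ => hg t
  have hHR : (0 : ℝ) < H := by exact_mod_cast hH
  -- the second moment
  have hs := second_moment (Icc 1 T) g (fd1_N R a M) (fun _ => 0) 1 B (fun t _ => hg t) hB0
    (by
      rw [fd1_sumN, ← hG]
      have h1 : ∑ _h ∈ R, cL * u * m ≤
          ∑ h ∈ R, ∑ t ∈ (Icc 1 T).filter (fun t => (a + h + M * t).Prime), g t :=
        Finset.sum_le_sum hA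
      rw [Finset.sum_const, nsmul_eq_mul] at h1
      have h3 : 4 * ((1 : ℝ) + 1) * m ≤ R.card * (cL * u) * m :=
        mul_le_mul_of_nonneg_right hR1 hm.le
      push_cast
      have h4 : (R.card : ℝ) * (cL * u * m) = R.card * (cL * u) * m := by ring
      rw [h4] at h1
      linarith)
    (by
      rw [fd1_sumN2, ← hG]
      have h1 : ∑ h ∈ R, ∑ h' ∈ R, ∑ t ∈ (Icc 1 T).filter (fun t => (a + h + M * t).Prime ∧
          (a + h' + M * t).Prime), g t ≤
          ∑ h ∈ R, ∑ h' ∈ R, ((if h = h' then Cu * u * m else 0) + Cu * u ^ 2 * m) := by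
        refine Finset.sum_le_sum fun h hh => Finset.sum_le_sum fun h' hh' => ?_
        by_cases e : h = h'
        · subst e
          simp only [and_self, if_true]
          have h2 := hB h hh
          have h3 : 0 ≤ Cu * u ^ 2 * m := by positivity
          linarith
        · rw [if_neg e, zero_add]
          exact hC h hh h' hh' e
      refine h1.trans ?_
      have h2 : ∑ h ∈ R, ∑ h' ∈ R, ((if h = h' then Cu * u * m else 0) + Cu * u ^ 2 * m) =
          Cu * m * (R.card * u) + Cu * m * (R.card * u) ^ 2 := by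
        have h3 : ∀ h ∈ R, ∑ h' ∈ R, ((if h = h' then Cu * u * m else 0) + Cu * u ^ 2 * m) =
            Cu * u * m + R.card * (Cu * u ^ 2 * m) := by
          intro h hh
          rw [Finset.sum_add_distrib, Finset.sum_const, nsmul_eq_mul, Finset.sum_ite_eq, if_pos hh]
        rw [Finset.sum_congr rfl h3, Finset.sum_const, nsmul_eq_mul]
        ring
      rw [h2]
      have h4 : 0 ≤ (R.card : ℝ) * u := by positivity
      have h6 : (R.card : ℝ) * u ≤ P * (1 + 1) ^ 2 := by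
        refine hR2.trans (mul_le_mul_of_nonneg_left ?_ hP)
        norm_num
      have h7 : ((R.card : ℝ) * u) ^ 2 ≤ P ^ 2 * (1 + 1) ^ 2 := by
        rw [← mul_pow]
        exact pow_le_pow_left₀ h4 hR2 2
      have h8 : 0 ≤ Cu * m := by positivity
      push_cast
      calc Cu * m * (R.card * u) + Cu * m * (R.card * u) ^ 2
          ≤ Cu * m * (P * (1 + 1) ^ 2) + Cu * m * (P ^ 2 * (1 + 1) ^ 2) :=
            add_le_add (mul_le_mul_of_nonneg_left h6 h8) (mul_le_mul_of_nonneg_left h7 h8)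
        _ = Cu * (P + P ^ 2) * ((1 : ℝ) + 1) ^ 2 * m := by ring
        _ ≤ Cu * (P + P ^ 2) * ((1 : ℝ) + 1) ^ 2 * (4 * G) :=
            mul_le_mul_of_nonneg_left hmG (by positivity)
        _ = 4 * Cu * (P + P ^ 2) * (((1 : ℝ) + 1) ^ 2 * G) := by ring
        _ ≤ B * (((1 : ℝ) + 1) ^ 2 * G) := mul_le_mul_of_nonneg_right hBP (by positivity)
        _ = B * ((1 : ℝ) + 1) ^ 2 * G := by ring)
    (by
      simp only [Nat.cast_zero, mul_zero, Finset.sum_const_zero]
      exact hG0)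
  rw [← hG] at hs
  -- the masses
  obtain ⟨mass, hmass⟩ : ∃ mass : ℕ → ℝ,
      mass = fun h => ∑ t ∈ (Icc 1 T).filter (fun t => GV R a M h t), g t := ⟨_, rfl⟩
  have hmass0 : ∀ h, 0 ≤ mass h := by
    intro h
    rw [hmass]
    exact Finset.sum_nonneg fun t _ => hg t
  have hsum : G / (2 * B) ≤ ∑ h ∈ Icc 1 H, mass h := by
    refine hs.trans ?_
    have h1 : (Icc 1 T).filter (fun t => 1 + 1 ≤ fd1_N R a M t ∧ (fun _ : ℕ => 0) t = 0) ⊆
        (Icc 1 H).biUnion (fun h => (Icc 1 T).filter (fun t => GV R a M h t)) := by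
      intro t ht
      rw [Finset.mem_filter] at ht
      obtain ⟨h, hh, hGV⟩ := V7_exists R a M H t hRH (by
        have := ht.2.1
        unfold fd1_N at this
        omega)
      rw [Finset.mem_biUnion]
      exact ⟨h, hh, Finset.mem_filter.mpr ⟨ht.1, hGV⟩⟩
    refine (Finset.sum_le_sum_of_subset_of_nonneg h1 fun t _ _ => hg t).trans ?_
    rw [hmass]
    exact V7_sum_biUnion_le _ _ _ hg
  have hrp : ∀ h ∈ Icc 1 H, mass h ≤ (rp R h : ℝ) * (Cu * u ^ 2 * m) := by
    intro h hh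
    rw [Finset.mem_Icc] at hh
    have h1 : (Icc 1 T).filter (fun t => GV R a M h t) ⊆
        (R.filter (fun x => x + h ∈ R)).biUnion (fun x => (Icc 1 T).filter (fun t =>
          (a + x + M * t).Prime ∧ (a + (x + h) + M * t).Prime)) := by
      intro t ht
      rw [Finset.mem_filter] at ht
      obtain ⟨ht1, x, hx, hxh, p1, p2, -⟩ := ht
      rw [Finset.mem_biUnion]
      exact ⟨x, Finset.mem_filter.mpr ⟨hx, hxh⟩, Finset.mem_filter.mpr ⟨ht1, p1, p2⟩⟩
    rw [hmass]
    refine (Finset.sum_le_sum_of_subset_of_nonneg h1 fun t _ _ => hg t).trans ?_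
    refine (V7_sum_biUnion_le _ _ _ hg).trans ?_
    have h2 : ∀ x ∈ R.filter (fun x => x + h ∈ R), ∑ t ∈ (Icc 1 T).filter (fun t =>
          (a + x + M * t).Prime ∧ (a + (x + h) + M * t).Prime), g t ≤ Cu * u ^ 2 * m := by
      intro x hx
      rw [Finset.mem_filter] at hx
      exact hC x hx.1 (x + h) hx.2 (by omega)
    refine (Finset.sum_le_sum h2).trans ?_
    rw [Finset.sum_const, nsmul_eq_mul]
    rfl
  set S : Finset ℕ := (Icc 1 H).filter (fun h => m / (16 * B * H) ≤ mass h) with hS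
  have hSsum : m / (16 * B) ≤ ∑ h ∈ S, mass h := by
    have h1 := Finset.sum_filter_add_sum_filter_not (Icc 1 H)
      (fun h => m / (16 * B * H) ≤ mass h) mass
    have h2 : ∑ h ∈ (Icc 1 H).filter (fun h => ¬ m / (16 * B * H) ≤ mass h), mass h ≤
        m / (16 * B) := by
      calc ∑ h ∈ (Icc 1 H).filter (fun h => ¬ m / (16 * B * H) ≤ mass h), mass h
          ≤ ∑ _h ∈ (Icc 1 H).filter (fun h => ¬ m / (16 * B * H) ≤ mass h), m / (16 * B * H) := by
            refine Finset.sum_le_sum fun h hh => ?_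
            have := (Finset.mem_filter.mp hh).2
            exact (not_le.mp this).le
        _ ≤ ∑ _h ∈ Icc 1 H, m / (16 * B * H) := by
            refine Finset.sum_le_sum_of_subset_of_nonneg (Finset.filter_subset _ _) fun _ _ _ => ?_
            positivity
        _ = m / (16 * B) := by
            rw [Finset.sum_const, nsmul_eq_mul, Nat.card_Icc]
            have : ((H + 1 - 1 : ℕ) : ℝ) = H := by simp
            rw [this]
            field_simp
    have h3 : m / (8 * B) ≤ G / (2 * B) := by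
      rw [div_le_div_iff₀ (by positivity) (by positivity)]
      nlinarith
    have h4 : m / (8 * B) = m / (16 * B) + m / (16 * B) := by
      field_simp
      norm_num
    rw [← hS] at h1
    linarith
  refine ⟨S, Finset.filter_subset _ _, ?_, ?_⟩
  · -- Cauchy-Schwarz
    have h1 : ∑ h ∈ S, mass h ≤ (Cu * u ^ 2 * m) * ∑ h ∈ S, (rp R h : ℝ) := by
      rw [Finset.mul_sum]
      refine Finset.sum_le_sum fun h hh => ?_
      rw [mul_comm (Cu * u ^ 2 * m)]
      exact hrp h (Finset.mem_of_mem_filter h hh)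
    have h2 : (∑ h ∈ S, (rp R h : ℝ)) ^ 2 ≤ S.card * (e2 R H : ℝ) := by
      have h3 := sq_sum_le_card_mul_sum_sq (s := S) (f := fun h => (rp R h : ℝ))
      refine h3.trans (mul_le_mul_of_nonneg_left ?_ (Nat.cast_nonneg _))
      have h4 : (e2 R H : ℝ) = ∑ h ∈ Icc 1 H, (rp R h : ℝ) ^ 2 := by
        unfold e2
        push_cast
        rfl
      rw [h4]
      exact Finset.sum_le_sum_of_subset_of_nonneg (Finset.filter_subset _ _)
        fun _ _ _ => by positivity
    have h5 : (m / (16 * B)) ^ 2 ≤ (Cu * u ^ 2 * m) ^ 2 * (S.card * (e2 R H : ℝ)) := by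
      calc (m / (16 * B)) ^ 2 ≤ ((Cu * u ^ 2 * m) * ∑ h ∈ S, (rp R h : ℝ)) ^ 2 :=
            pow_le_pow_left₀ (by positivity) (hSsum.trans h1) 2
        _ = (Cu * u ^ 2 * m) ^ 2 * (∑ h ∈ S, (rp R h : ℝ)) ^ 2 := by ring
        _ ≤ _ := mul_le_mul_of_nonneg_left h2 (by positivity)
    have h6 : m ^ 2 ≤ m ^ 2 * ((16 * B * Cu) ^ 2 * u ^ 4 * (S.card * (e2 R H : ℝ))) := by
      have h7 : (m / (16 * B)) ^ 2 * (16 * B) ^ 2 = m ^ 2 := by field_simp
      have h8 := mul_le_mul_of_nonneg_right h5 (by positivity : (0 : ℝ) ≤ (16 * B) ^ 2)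
      rw [h7] at h8
      refine h8.trans (le_of_eq ?_)
      ring
    have h9 : 1 ≤ (16 * B * Cu) ^ 2 * u ^ 4 * (S.card * (e2 R H : ℝ)) := by
      have hm2 : 0 < m ^ 2 := by positivity
      by_contra hcon
      push Not at hcon
      have := mul_lt_mul_of_pos_left hcon hm2
      linarith
    have h10 : (H : ℝ) ≤ (16 * B * Cu) ^ 2 * C4 * S.card := by
      calc (H : ℝ) = H * 1 := by ring
        _ ≤ H * ((16 * B * Cu) ^ 2 * u ^ 4 * (S.card * (e2 R H : ℝ))) :=
            mul_le_mul_of_nonneg_left h9 hHR.le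
        _ = (16 * B * Cu) ^ 2 * S.card * ((e2 R H : ℝ) * H * u ^ 4) := by ring
        _ ≤ (16 * B * Cu) ^ 2 * S.card * C4 := mul_le_mul_of_nonneg_left hen (by positivity)
        _ = (16 * B * Cu) ^ 2 * C4 * S.card := by ring
    rw [one_div, inv_mul_le_iff₀ (by positivity)]
    exact h10
  · intro h hh
    have h1 : m / (16 * B * H) ≤ mass h := (Finset.mem_filter.mp hh).2
    have h2 : mass h ≤ E0 * (((Icc 1 T).filter (fun t => GV R a M h t)).card : ℝ) := by
      rw [hmass]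
      have h3 := Finset.sum_le_card_nsmul ((Icc 1 T).filter (fun t => GV R a M h t)) g E0
        (fun t _ => hE t)
      rw [nsmul_eq_mul, mul_comm] at h3
      exact h3
    rw [div_le_iff₀ (by positivity)] at h1
    calc m ≤ mass h * (16 * B * H) := h1
      _ ≤ (E0 * (((Icc 1 T).filter (fun t => GV R a M h t)).card : ℝ)) * (16 * B * H) :=
          mul_le_mul_of_nonneg_right h2 (by positivity)
      _ = _ := by ring

end Pool.Agent.Lib.H92V
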