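import Pool.Agent.Lib.H92V.V6
import Pool.Agent.Lib.H92V.V7

/-!
# Chunk V8: many differences for one `X`
-/

open Finset Real
open Pool.Agent.Lib.H5C
open Pool.Agent.Lib.H56G

namespace Pool.Agent.Lib.H92V

theorem v8_fin (δ ε B : ℝ) (hδ : 0 < δ) (hε : 4 * δ ≤ ε) (hB : 0 < B) : ∃ X₀ : ℕ, ∀ X : ℕ,
    X₀ ≤ X → 144 * B * (NX δ X : ℝ) ^ 7 * (4 : ℝ) ^ ⌊δ * log X⌋₊ * (X : ℝ) ^ (1 - ε) ≤ 60 * X := by
  have T0 : Filter.Tendsto (fun n : ℕ => (n : ℝ)) Filter.atTop Filter.atTop :=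
    tendsto_natCast_atTop_atTop
  have E1 := T0.eventually_ge_atTop 1
  have E2 := ((tendsto_rpow_atTop hδ).comp T0).eventually_ge_atTop (144 * B)
  obtain ⟨X₀, hX₀⟩ := Filter.eventually_atTop.mp (E1.and E2)
  refine ⟨X₀, fun X hX => ?_⟩
  obtain ⟨h1, h2⟩ := hX₀ X hX
  simp only [Function.comp_apply] at h2
  have hX0 : (0 : ℝ) < X := by linarith
  have hL : 0 ≤ log (X : ℝ) := log_nonneg h1
  have hN : (NX δ X : ℝ) ≤ (X : ℝ) ^ (δ / 8) := Nat.floor_le (by positivity)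
  have hN7 : (NX δ X : ℝ) ^ 7 ≤ (X : ℝ) ^ (7 * (δ / 8)) := by
    calc (NX δ X : ℝ) ^ 7 ≤ ((X : ℝ) ^ (δ / 8)) ^ 7 := by gcongr
      _ = (X : ℝ) ^ (7 * (δ / 8)) := by
        rw [← rpow_natCast, ← rpow_mul hX0.le]
        congr 1
        push_cast
        ring
  have h4 : (4 : ℝ) ^ ⌊δ * log X⌋₊ ≤ (X : ℝ) ^ (2 * δ) := by
    have hy : (⌊δ * log X⌋₊ : ℝ) ≤ δ * log X := Nat.floor_le (by positivity)
    have hl4 : log 4 ≤ 2 := by
      have : log (4 : ℝ) = 2 * log 2 := by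
        rw [show (4 : ℝ) = 2 ^ 2 by norm_num, log_pow]
        push_cast
        ring
      rw [this]
      have := log_two_lt_d9
      linarith
    have hl40 : 0 ≤ log (4 : ℝ) := log_nonneg (by norm_num)
    rw [← rpow_natCast, rpow_def_of_pos (by norm_num), rpow_def_of_pos hX0]
    apply exp_le_exp.mpr
    calc log 4 * (⌊δ * log X⌋₊ : ℝ) ≤ 2 * (δ * log X) := by gcongr
      _ = log X * (2 * δ) := by ring
  have h5 : (X : ℝ) ^ (1 - ε) ≤ (X : ℝ) ^ (1 - 4 * δ) :=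
    rpow_le_rpow_of_exponent_le h1 (by linarith)
  calc 144 * B * (NX δ X : ℝ) ^ 7 * (4 : ℝ) ^ ⌊δ * log X⌋₊ * (X : ℝ) ^ (1 - ε)
      ≤ 144 * B * (X : ℝ) ^ (7 * (δ / 8)) * (X : ℝ) ^ (2 * δ) * (X : ℝ) ^ (1 - 4 * δ) := by
        gcongr
    _ ≤ (X : ℝ) ^ δ * (X : ℝ) ^ (7 * (δ / 8)) * (X : ℝ) ^ (2 * δ) * (X : ℝ) ^ (1 - 4 * δ) := by
        gcongr
    _ = (X : ℝ) ^ (δ + 7 * (δ / 8) + 2 * δ + (1 - 4 * δ)) := by
        rw [rpow_add hX0, rpow_add hX0, rpow_add hX0]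
    _ ≤ (X : ℝ) ^ (1 : ℝ) := rpow_le_rpow_of_exponent_le h1 (by linarith)
    _ ≤ 60 * X := by rw [rpow_one]; linarith

/-- the arithmetic of the constants -/
theorem v8_const (δ κ c1 C1 cL C3 P C4 L y r e H : ℝ) (hδ : 0 < δ) (hκ : 0 < κ)
    (hc1 : 0 < c1) (hC1 : 0 < C1) (hcL : 0 < cL) (hC3 : 0 < C3)
    (hC3' : 8 ≤ c1 * κ * δ * cL * C3) (hP : P = C1 * κ * δ * C3)
    (hC4 : C4 = C1 * (κ * δ) ^ 4 * (2 * C3) ^ 4)
    (hL : 0 < L) (hy1 : δ / 2 * L ≤ y) (hy2 : y ≤ δ * L)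
    (hr1 : c1 * (κ * y) ≤ r) (hr2 : r ≤ C1 * (κ * y)) (he0 : 0 ≤ e) (hH : 0 ≤ H)
    (he : e * H ≤ C1 * (κ * y) ^ 4) :
    4 * (1 + 1) ≤ r * (cL * (C3 * 2 / L)) ∧ r * (C3 * 2 / L) ≤ P * (1 + 1) ∧
    e * H * (C3 * 2 / L) ^ 4 ≤ C4 := by
  have hy0 : 0 < y := lt_of_lt_of_le (by positivity) hy1
  refine ⟨?_, ?_, ?_⟩
  · have h1 : c1 * (κ * (δ / 2 * L)) ≤ r := le_trans (by gcongr) hr1
    have h2 : c1 * (κ * (δ / 2 * L)) * (cL * (C3 * 2 / L)) ≤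
        r * (cL * (C3 * 2 / L)) := mul_le_mul_of_nonneg_right h1 (by positivity)
    have h3 : c1 * (κ * (δ / 2 * L)) * (cL * (C3 * 2 / L)) = c1 * κ * δ * cL * C3 := by
      field_simp
    linarith
  · have h1 : r ≤ C1 * (κ * (δ * L)) := hr2.trans (by gcongr)
    have h2 : r * (C3 * 2 / L) ≤ C1 * (κ * (δ * L)) * (C3 * 2 / L) :=
      mul_le_mul_of_nonneg_right h1 (by positivity)
    have h3 : C1 * (κ * (δ * L)) * (C3 * 2 / L) = P * (1 + 1) := by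
      rw [hP]
      field_simp
      norm_num
    linarith
  · have h1 : e * H ≤ C1 * (κ * (δ * L)) ^ 4 := he.trans (by gcongr)
    calc e * H * (C3 * 2 / L) ^ 4 ≤ C1 * (κ * (δ * L)) ^ 4 * (C3 * 2 / L) ^ 4 := by gcongr
      _ = C4 := by
        rw [hC4]
        field_simp

open Classical in
/-- As `H5C.good_t` (`FD1.lean`, copy its proof) with `k = 1`, `er_en` in place of `er`, `v7` in place of
`fd1_comb`. -/
theorem good_v (ε : ℝ) (hε : 0 < ε) : ∃ (δ κ c : ℝ), 0 < δ ∧ δ ≤ 1 / 100 ∧ 0 < κ ∧ κ ≤ 1 ∧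
    0 < c ∧ ∃ X₀ : ℕ, ∀ X : ℕ, X₀ ≤ X →
    ∃ (D : Finset ℕ) (p1 a T : ℕ), OKD ⌊δ * log X⌋₊ D p1 ∧
      (⌊δ * log X⌋₊ : ℝ) < a ∧ (a : ℝ) ≤ X ∧ MM ⌊δ * log X⌋₊ D p1 * T ≤ 61 * X ∧
      ∃ S : Finset ℕ, S ⊆ Icc 1 (hE κ ⌊δ * log X⌋₊) ∧
        c * hE κ ⌊δ * log X⌋₊ ≤ (S.card : ℝ) ∧
        ∀ h ∈ S, (X : ℝ) ^ (1 - ε) ≤ (((Icc 1 T).filter (fun t =>
          GV (SE κ ⌊δ * log X⌋₊ (MM ⌊δ * log X⌋₊ D p1) a) a (MM ⌊δ * log X⌋₊ D p1) h t)).card :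
            ℝ) := by
  obtain ⟨δ₀, hδ₀, hδ₀1, hpl0⟩ := prime_low
  obtain ⟨δ, hδ, hδδ₀, hδε⟩ : ∃ δ : ℝ, 0 < δ ∧ δ ≤ δ₀ ∧ 4 * δ ≤ ε :=
    ⟨min δ₀ (ε / 4), lt_min hδ₀ (by positivity), min_le_left _ _, by
      have := min_le_right δ₀ (ε / 4); linarith⟩
  have hδ1 : δ ≤ 1 / 100 := hδδ₀.trans hδ₀1
  obtain ⟨cL, c0L, hcL, hc0L, XL, hpl⟩ := hpl0 δ hδ hδδ₀
  obtain ⟨c0u, Cu, hc0u, hCu, XU, hupp⟩ := upp δ hδ hδ1
  obtain ⟨c0p, hc0p, XP, hpar⟩ := par_num δ hδ hδ1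
  obtain ⟨c1, C1, hc1, hC1, her0⟩ := er_en
  obtain ⟨κ, hκ, hκ1, hκL, hκu, hκp⟩ : ∃ κ : ℝ, 0 < κ ∧ κ ≤ 1 ∧ C1 * κ ≤ c0L ∧ C1 * κ ≤ c0u ∧
      C1 * κ ≤ c0p := by
    refine ⟨min 1 (min c0L (min c0u c0p) / C1), lt_min one_pos (by positivity), min_le_left _ _,
      ?_, ?_, ?_⟩
    all_goals
      have h1 : min 1 (min c0L (min c0u c0p) / C1) ≤ min c0L (min c0u c0p) / C1 := min_le_right _ _
      rw [le_div_iff₀ hC1] at h1
      have h2 : min c0L (min c0u c0p) ≤ c0L := min_le_left _ _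
      have h3 : min c0L (min c0u c0p) ≤ min c0u c0p := min_le_right _ _
      have h4 : min c0u c0p ≤ c0u := min_le_left _ _
      have h5 : min c0u c0p ≤ c0p := min_le_right _ _
      linarith
  obtain ⟨y₀, her⟩ := her0 κ hκ hκ1
  obtain ⟨C3, hC31, hC3'⟩ : ∃ C3 : ℝ, 1 ≤ C3 ∧ 8 ≤ c1 * κ * δ * cL * C3 := by
    refine ⟨1 + 8 / (c1 * κ * δ * cL), ?_, ?_⟩
    · have : 0 ≤ 8 / (c1 * κ * δ * cL) := by positivity
      linarith
    · have h1 : c1 * κ * δ * cL * (1 + 8 / (c1 * κ * δ * cL)) = c1 * κ * δ * cL + 8 := by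
        field_simp
      have h2 : 0 ≤ c1 * κ * δ * cL := by positivity
      linarith
  have hC3 : 0 < C3 := by linarith
  obtain ⟨P, hP⟩ : ∃ P : ℝ, P = C1 * κ * δ * C3 := ⟨_, rfl⟩
  have hP0 : 0 ≤ P := by rw [hP]; positivity
  obtain ⟨Bc, hBc, hBP⟩ : ∃ Bc : ℝ, 0 < Bc ∧ 4 * Cu * (P + P ^ 2) ≤ Bc :=
    ⟨4 * Cu * (P + P ^ 2) + 1, by positivity, by linarith⟩
  obtain ⟨C4, hC4⟩ : ∃ C4 : ℝ, C4 = C1 * (κ * δ) ^ 4 * (2 * C3) ^ 4 := ⟨_, rfl⟩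
  have hC40 : 0 < C4 := by rw [hC4]; positivity
  obtain ⟨X1, hnum⟩ := fc_num 1 δ le_rfl hδ hδ1 (by linarith)
  obtain ⟨X2, hfin⟩ := v8_fin δ ε Bc hδ hδε hBc
  obtain ⟨X3, hev⟩ := fd1_ev δ (2 * C3) hδ y₀
  refine ⟨δ, κ, 1 / ((16 * Bc * Cu) ^ 2 * C4), hδ, hδ1, hκ, hκ1, by positivity,
    XL + XU + XP + X1 + X2 + X3, fun X hX => ?_⟩
  obtain ⟨-, -, -, n4, n5, n6, n7, n8, n9, n10, n11, n12, n13, n14, n15, n16⟩ :=
    hnum X (by omega)
  obtain ⟨v1, v2, v3, v4, v5, v6⟩ := hev X (by omega)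
  have hfinX := hfin X (by omega)
  obtain ⟨D, p1, hOK, hplX⟩ := hpl X (by omega)
  refine ⟨D, p1, ?_⟩
  have hyfl : (⌊δ * log X⌋₊ : ℝ) ≤ δ * log X := Nat.floor_le (by positivity)
  set y := ⌊δ * log X⌋₊ with hy
  have hLpos : 0 < log (X : ℝ) := by linarith
  have hlpos : 0 < log (log (X : ℝ)) := by linarith
  have hXpos : (0 : ℝ) < X := by linarith
  obtain ⟨a₀, ha1, ha2, ha3⟩ := her y v4 D p1 hOK
  -- `M` and `a`
  have hMpos : 0 < MM y D p1 := ER6b_pos y D p1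
  have hM4 : (MM y D p1 : ℝ) ≤ (4 : ℝ) ^ y := by exact_mod_cast mm_le y D p1
  have hMprime : ∀ p, p.Prime → WX X < p → ¬ p ∣ MM y D p1 := by
    intro p hp h1 h2
    have h3 := mm_prime y D p1 p hp h2
    have h4 : (y : ℝ) ≤ WX X := by
      refine n4.trans (le_trans ?_ n13)
      exact le_self_pow₀ (by linarith) (by norm_num)
    have h5 : y ≤ WX X := by exact_mod_cast h4
    omega
  set M := MM y D p1 with hM
  obtain ⟨a, haM, haN, haN2⟩ := fd1_shift a₀ M (NX δ X) hMpos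
  rw [← fd1_SE_congr κ y M a₀ a haM] at ha1 ha2 ha3
  -- sizes
  have hcardL : ((SE κ y M a).card : ℝ) ≤ C1 * κ * log X := by
    refine ha2.trans ?_
    calc C1 * (κ * (y : ℝ)) ≤ C1 * (κ * log X) := by gcongr
      _ = C1 * κ * log X := by ring
  obtain ⟨w1, -, w3, -⟩ := hpar X (by omega) (SE κ y M a).card
    (hcardL.trans (mul_le_mul_of_nonneg_right hκp hLpos.le)) _ le_rfl
  have hEW : hE κ y ≤ WX X := by
    have h1 : (hE κ y : ℝ) ≤ WX X := by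
      refine le_trans ?_ n14
      exact_mod_cast fd1_hE_mono κ y hκ.le hκ1
    exact_mod_cast h1
  have hNr : (NX δ X : ℝ) ≤ (X : ℝ) ^ (1 / 4 : ℝ) := by
    refine (Nat.floor_le (by positivity)).trans ?_
    exact rpow_le_rpow_of_exponent_le v6 (by linarith)
  have hE4 : (X : ℝ) ^ (1 / 4 : ℝ) * (X : ℝ) ^ (1 / 4 : ℝ) = (X : ℝ) ^ (1 / 2 : ℝ) := by
    rw [← rpow_add hXpos]
    norm_num
  have hEE : 4 * (X : ℝ) ^ (1 / 4 : ℝ) ≤ (X : ℝ) ^ (1 / 2 : ℝ) := by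
    rw [← hE4]
    exact mul_le_mul_of_nonneg_right v5 (by positivity)
  have hXX : (X : ℝ) ^ (1 / 2 : ℝ) ≤ X := by
    calc (X : ℝ) ^ (1 / 2 : ℝ) ≤ (X : ℝ) ^ (1 : ℝ) := rpow_le_rpow_of_exponent_le v6 (by norm_num)
      _ = X := rpow_one _
  have hMr : 4 * (M : ℝ) ≤ (X : ℝ) ^ (1 / 4 : ℝ) := by
    refine le_trans ?_ n7
    linarith
  have haX : ((a + WX X : ℕ) : ℝ) ≤ (X : ℝ) ^ (1 / 2 : ℝ) := by
    have h1 : a + WX X ≤ 2 * NX δ X + 2 * M := by omega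
    have h2 : ((a + WX X : ℕ) : ℝ) ≤ 2 * NX δ X + 2 * M := by exact_mod_cast h1
    refine h2.trans (le_trans ?_ hEE)
    have h3 : 0 ≤ (X : ℝ) ^ (1 / 4 : ℝ) := by positivity
    linarith
  have hWya : WX X < a := lt_of_le_of_lt w3 haN
  have hyW : (y : ℝ) ≤ WX X := by
    refine n4.trans (le_trans ?_ n13)
    exact le_self_pow₀ (by linarith) (by norm_num)
  -- `T`
  set T := 60 * X / M + 1 with hT
  have hXM : M ≤ X := by
    have h1 : (M : ℝ) ≤ X := by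
      have h3 : (X : ℝ) ^ (1 / 4 : ℝ) ≤ (X : ℝ) ^ (1 / 2 : ℝ) := by
        have : 0 ≤ (X : ℝ) ^ (1 / 4 : ℝ) := by positivity
        linarith
      have h4 : (0 : ℝ) ≤ M := Nat.cast_nonneg M
      linarith
    exact_mod_cast h1
  have hT1 : 60 * X ≤ M * T := (Nat.lt_mul_div_succ (60 * X) hMpos).le
  have hT2 : M * T ≤ 61 * X := by
    have h1 := Nat.mul_div_le (60 * X) M
    have h3 : M * T = M * (60 * X / M) + M := by rw [hT]; ring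
    omega
  refine ⟨a, T, hOK, ?_, ?_, hT2, ?_⟩
  · refine lt_of_le_of_lt hyW ?_
    exact_mod_cast hWya
  · refine le_trans ?_ (haX.trans hXX)
    push_cast
    have : (0 : ℝ) ≤ WX X := Nat.cast_nonneg _
    linarith
  -- the system
  set R := SE κ y M a with hR
  have hRmem : ∀ h ∈ R, 1 ≤ h ∧ h ≤ hE κ y ∧ Nat.Coprime (a + h) M := by
    intro h hh
    rw [hR] at hh
    unfold SE at hh
    rw [Finset.mem_filter, Finset.mem_Icc] at hh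
    exact ⟨hh.1.1, hh.1.2, hh.2⟩
  have hBW : ∀ b ∈ R.image (fun h => a + h), ∀ b' ∈ R.image (fun h => a + h), b ≤ b' + WX X := by
    intro b hb b' hb'
    rw [Finset.mem_image] at hb hb'
    obtain ⟨h, hh, rfl⟩ := hb
    obtain ⟨h', hh', rfl⟩ := hb'
    have := (hRmem h hh).2.1
    omega
  set s := mkSys (WX X) (NX δ X) M (R.image (fun h => a + h)) hMprime hBW with hs
  have hsv : IsSieve s δ X := ⟨fun i => (mem_Ioc.mp (mem_filter.mp i.2).1).1,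
    fun i => (mem_Ioc.mp (mem_filter.mp i.2).1).2,
    fun p hp h1 h2 => ⟨⟨p, mem_filter.mpr ⟨mem_Ioc.mpr ⟨h1, h2⟩, hp⟩⟩, rfl⟩⟩
  have hcard : Fintype.card {b // b ∈ R.image (fun h => a + h)} = R.card := by
    rw [Fintype.card_coe, Finset.card_image_of_injective]
    intro x x' hxx
    simpa using hxx
  -- `θ`
  set q : ℝ := C3 * 2 / log (log X) with hq
  have hq0 : 0 ≤ q := by positivity
  have hq1 : q ≤ 1 := by
    rw [hq, div_le_one hlpos]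
    linarith
  have hsq1 : √q ≤ 1 := (Real.sqrt_le_sqrt hq1).trans (le_of_eq Real.sqrt_one)
  have hθq : (1 - (1 - √q)) ^ 2 = q := by
    rw [sub_sub_cancel, Real.sq_sqrt hq0]
  have hθ0 : 0 ≤ 1 - √q := by linarith
  have hθ1 : 1 - √q ≤ 1 := by linarith [Real.sqrt_nonneg q]
  have hθl : 1 / log (log (X : ℝ)) ≤ (1 - (1 - √q)) ^ 2 := by
    rw [hθq, hq]
    refine div_le_div_of_nonneg_right ?_ hlpos.le
    linarith
  have hTY : (X : ℝ) ^ (1 / 2 : ℝ) ≤ T := by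
    have h1 : (60 : ℝ) * X ≤ M * T := by exact_mod_cast hT1
    have h2 : (M : ℝ) * T ≤ (X : ℝ) ^ (1 / 4 : ℝ) * T := by
      refine mul_le_mul_of_nonneg_right ?_ (Nat.cast_nonneg _)
      have : (0 : ℝ) ≤ M := Nat.cast_nonneg M
      linarith
    have h3 : (X : ℝ) ^ (1 / 4 : ℝ) * (X : ℝ) ^ (1 / 2 : ℝ) ≤ (X : ℝ) ^ (1 / 4 : ℝ) * T := by
      refine le_trans ?_ h2
      rw [← rpow_add hXpos]
      calc (X : ℝ) ^ (1 / 4 + 1 / 2 : ℝ) ≤ (X : ℝ) ^ (1 : ℝ) :=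
            rpow_le_rpow_of_exponent_le v6 (by norm_num)
        _ ≤ 60 * X := by rw [rpow_one]; linarith
        _ ≤ M * T := h1
    exact le_of_mul_le_mul_left h3 (by positivity)
  have hJu : (Fintype.card {b // b ∈ R.image (fun h => a + h)} : ℝ) ≤ c0u * log X := by
    rw [hcard]
    exact hcardL.trans (mul_le_mul_of_nonneg_right hκu hLpos.le)
  have hJL : (Fintype.card {b // b ∈ R.image (fun h => a + h)} : ℝ) ≤ c0L * log X := by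
    rw [hcard]
    exact hcardL.trans (mul_le_mul_of_nonneg_right hκL hLpos.le)
  obtain ⟨hSpos, -, u1, u2, u3, u4, -⟩ :=
    hupp X (by omega) s hsv hJu (1 - √q) hθ0 hθ1 hθl T hTY
  have hbmem : ∀ j : {b // b ∈ R.image (fun h => a + h)}, ∃ h ∈ R, j.1 = a + h := by
    intro j
    obtain ⟨h, hh, he⟩ := Finset.mem_image.mp j.2
    exact ⟨h, hh, he.symm⟩
  have hl1 := hplX s rfl hsv hJL (fun j => by
      obtain ⟨h, hh, he⟩ := hbmem j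
      have h2 : s.b j = a + h := he
      rw [h2]
      exact (hRmem h hh).2.2) (fun j => by
      obtain ⟨h, hh, he⟩ := hbmem j
      have h2 : s.b j = a + h := he
      rw [h2]
      refine le_trans ?_ haX
      have h3 : a + h ≤ a + WX X := by
        have := (hRmem h hh).2.1
        omega
      exact_mod_cast h3) (1 - √q) hθ0 hθ1 hθl T hT1 hT2
  rw [hθq] at u3 u4 hl1
  -- the numbers
  have hu : log (log (X : ℝ)) / log X * q = C3 * 2 / log X := by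
    rw [hq]
    field_simp
  rw [hu] at u3 u4 hl1
  obtain ⟨r1, r2, r3⟩ := v8_const δ κ c1 C1 cL C3 P C4 (log X) y R.card
    (e2 R (hE κ y)) (hE κ y) hδ hκ hc1 hC1 hcL hC3 hC3' hP hC4 hLpos
    n8 hyfl ha1 ha2 (Nat.cast_nonneg _) (Nat.cast_nonneg _) ha3
  -- no sieve prime divides a prime of the form
  have hnd : ∀ h ∈ R, ∀ t, (a + h + M * t).Prime → ∀ i, ¬ s.pr i ∣ a + h + M * t := by
    intro h hh t hp i hi
    have h1 : s.pr i = a + h + M * t := (Nat.prime_dvd_prime_iff_eq (s.prime i) hp).1 hi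
    have h2 : s.pr i ≤ NX δ X := (mem_Ioc.mp (mem_filter.mp i.2).1).2
    have h3 := (hRmem h hh).1
    omega
  set Z := ZZ s (tb s (zX δ X) (1 - √q)) with hZ
  have hZ1 : 1 ≤ Z := one_le_ZZ s _
  set g : ℕ → ℝ := fun t =>
    (∑ κ', cc s (tb s (zX δ X) (1 - √q)) (NX δ X) κ' * s.U κ' t) ^ 2 with hg
  have hg0 : ∀ t, 0 ≤ g t := fun t => sq_nonneg _
  have hN1 : (1 : ℝ) ≤ NX δ X := by exact_mod_cast n12
  have hgE : ∀ t, g t ≤ 9 * (NX δ X : ℝ) ^ 6 := by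
    intro t
    refine L_sq_le s (WX X) (by omega) hsv.1 ?_ (zX δ X) (1 - √q) (NX δ X) hθ0 hθ1 hSpos hN1 t
    rw [hcard]
    obtain ⟨-, w2, -⟩ := hpar X (by omega) R.card
      (hcardL.trans (mul_le_mul_of_nonneg_right hκp hLpos.le)) _ le_rfl
    exact w2
  have hsubset : ∀ h ∈ R, (Icc 1 T).filter (fun t => (a + h + M * t).Prime) ⊆
      (Icc 1 T).filter (fun t => ∀ i, ¬ s.pr i ∣ a + h + s.M * t) := by
    intro h hh t ht
    rw [Finset.mem_filter] at ht ⊢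
    exact ⟨ht.1, hnd h hh t ht.2⟩
  have hmemB : ∀ h ∈ R, a + h ∈ R.image (fun h => a + h) := fun h hh =>
    Finset.mem_image_of_mem _ hh
  have hHpos : 0 < hE κ y := by
    have h1 : R.Nonempty := by
      rw [← Finset.card_pos]
      have h2 : (0 : ℝ) < R.card := by
        have : (0 : ℝ) < y := lt_of_lt_of_le (by positivity) n8
        exact lt_of_lt_of_le (by positivity) ha1
      exact_mod_cast h2
    obtain ⟨h, hh⟩ := h1
    have := hRmem h hh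
    omega
  have hTpos : (0 : ℝ) < T := lt_of_lt_of_le (by positivity) hTY
  obtain ⟨S, hS1, hS2, hS3⟩ := v7 R a M T (hE κ y) g hg0 (fun h hh => ⟨(hRmem h hh).1,
    (hRmem h hh).2.1⟩) hHpos (T * Z)
    (9 * (NX δ X : ℝ) ^ 6) cL Cu (C3 * 2 / log X) P Bc C4 (by positivity) (by positivity)
    hCu hP0 hBc (by
      refine le_trans (le_of_eq ?_) u1
      ring) (by
      refine u2.trans (le_of_eq ?_)
      ring) (by
      intro h hh
      refine le_trans (le_of_eq ?_) (hl1 ⟨a + h, hmemB h hh⟩)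
      ring) (by
      intro h hh
      refine le_trans ?_ ((u3 ⟨a + h, hmemB h hh⟩).trans (le_of_eq ?_))
      · exact Finset.sum_le_sum_of_subset_of_nonneg (hsubset h hh) fun t _ _ => hg0 t
      · ring) (by
      intro h hh h' hh' hne
      refine le_trans ?_ ((u4 ⟨a + h, hmemB h hh⟩ ⟨a + h', hmemB h' hh'⟩ (by
        intro heq
        have := congrArg Subtype.val heq
        simp only at this
        omega)).trans (le_of_eq ?_))
      · refine Finset.sum_le_sum_of_subset_of_nonneg ?_ fun t _ _ => hg0 t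
        intro t ht
        rw [Finset.mem_filter] at ht ⊢
        exact ⟨ht.1, hnd h hh t ht.2.1, hnd h' hh' t ht.2.2⟩
      · ring) r1 r2 hBP hC40 r3 hgE
  -- conclusion
  refine ⟨S, hS1, hS2, fun h hh => ?_⟩
  have h1 := hS3 h hh
  set A : ℝ := (((Icc 1 T).filter (fun t => GV R a M h t)).card : ℝ) with hA
  have hA0 : 0 ≤ A := Nat.cast_nonneg _
  have hT0 : (0 : ℝ) ≤ T := Nat.cast_nonneg T
  have hHN : (hE κ y : ℝ) ≤ NX δ X := by
    have : hE κ y ≤ NX δ X := hEW.trans w3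
    exact_mod_cast this
  have hTA : (T : ℝ) ≤ 144 * Bc * (NX δ X : ℝ) ^ 7 * A := by
    refine (le_mul_of_one_le_right hT0 hZ1).trans (h1.trans ?_)
    calc 16 * Bc * (hE κ y : ℝ) * (9 * (NX δ X : ℝ) ^ 6 * A)
        ≤ 16 * Bc * (NX δ X : ℝ) * (9 * (NX δ X : ℝ) ^ 6 * A) := by gcongr
      _ = _ := by ring
  have hMT : (60 : ℝ) * X ≤ M * T := by exact_mod_cast hT1
  have h60 : 144 * Bc * (NX δ X : ℝ) ^ 7 * (4 : ℝ) ^ y * (X : ℝ) ^ (1 - ε) ≤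
      144 * Bc * (NX δ X : ℝ) ^ 7 * (4 : ℝ) ^ y * A := by
    calc 144 * Bc * (NX δ X : ℝ) ^ 7 * (4 : ℝ) ^ y * (X : ℝ) ^ (1 - ε) ≤ 60 * X := hfinX
      _ ≤ M * T := hMT
      _ ≤ (4 : ℝ) ^ y * (144 * Bc * (NX δ X : ℝ) ^ 7 * A) :=
          mul_le_mul hM4 hTA hT0 (by positivity)
      _ = _ := by ring
  exact le_of_mul_le_mul_left h60 (by positivity)

end Pool.Agent.Lib.H92V
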