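import Pool.Agent.Lib.H92V.V8

/-!
# Chunk V9: the number of different prime gaps
-/

open Finset Real
open Pool.Agent.Lib.H5C
open Pool.Agent.Lib.H56G

namespace Pool.Agent.Lib.H92V

/-- one `t` gives two consecutive primes at distance `h` -/
theorem v9_one (κ : ℝ) (y M a h : ℕ) (hya : y < a) (hh1 : 1 ≤ h)
    (hM : ∀ p : ℕ, p.Prime → p ∣ M → p ≤ y) (t : ℕ) (ht : GV (SE κ y M a) a M h t) :
    ∃ n : ℕ, a + M * t < Nat.nth Nat.Prime n ∧
      Nat.nth Nat.Prime (n + 1) ≤ a + M * t + hE κ y ∧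
      Nat.nth Nat.Prime (n + 1) = Nat.nth Nat.Prime n + h := by
  classical
  have hinf : (Set.ofPred Nat.Prime).Infinite := Nat.infinite_setOfPred_prime
  have hmono := Nat.nth_strictMono hinf
  obtain ⟨x, hx, hxh, hp, hq, hno⟩ := ht
  have hSE : ∀ z ∈ SE κ y M a, 1 ≤ z ∧ z ≤ hE κ y := by
    intro z hz
    unfold SE at hz
    rw [Finset.mem_filter, Finset.mem_Icc] at hz
    exact hz.1
  have key : ∀ r : ℕ, r.Prime → a + M * t < r → r ≤ a + M * t + hE κ y →
      ∃ z ∈ SE κ y M a, a + z + M * t = r := by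
    intro r hr h1 h2
    refine ⟨r - (a + M * t), ?_, by omega⟩
    unfold SE
    rw [Finset.mem_filter, Finset.mem_Icc]
    refine ⟨⟨by omega, by omega⟩, ?_⟩
    have h3 : a + (r - (a + M * t)) + M * t = r := by omega
    by_contra hc
    obtain ⟨l, hl, hla, hlM⟩ := Nat.Prime.not_coprime_iff_dvd.1 hc
    have h4 : l ∣ r := by
      rw [← h3]
      exact dvd_add hla (hlM.trans (dvd_mul_right _ _))
    have h5 : l = r := ((Nat.prime_dvd_prime_iff_eq hl hr).1 h4)
    have h6 := hM l hl hlM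
    omega
  set q := a + x + M * t with hqd
  set q' := a + (x + h) + M * t with hqd'
  have hqq : q' = q + h := by omega
  have hx1 := (hSE x hx).1
  have hxh2 := (hSE (x + h) hxh).2
  refine ⟨Nat.count Nat.Prime q, ?_, ?_, ?_⟩
  · rw [Nat.nth_count hp]
    omega
  all_goals
    have hn : Nat.nth Nat.Prime (Nat.count Nat.Prime q) = q := Nat.nth_count hp
    have hc1 : Nat.count Nat.Prime (q + 1) = Nat.count Nat.Prime q + 1 := by
      rw [Nat.count_succ, if_pos hp]
    have hc2 : Nat.count Nat.Prime (q' + 1) = Nat.count Nat.Prime q' + 1 := by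
      rw [Nat.count_succ, if_pos hq]
    have hc3 : Nat.count Nat.Prime (q + 1) ≤ Nat.count Nat.Prime q' :=
      Nat.count_monotone _ (by omega)
    have hle : Nat.nth Nat.Prime (Nat.count Nat.Prime q + 1) < q' + 1 := by
      apply Nat.nth_lt_of_lt_count
      omega
    have hlt : q < Nat.nth Nat.Prime (Nat.count Nat.Prime q + 1) := by
      calc q = Nat.nth Nat.Prime (Nat.count Nat.Prime q) := hn.symm
        _ < _ := hmono (Nat.lt_succ_self _)
    have heq : Nat.nth Nat.Prime (Nat.count Nat.Prime q + 1) = q' := by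
      by_contra hne
      have hr : (Nat.nth Nat.Prime (Nat.count Nat.Prime q + 1)).Prime :=
        Nat.nth_mem_of_infinite hinf _
      obtain ⟨z, hz, hzr⟩ := key _ hr (by omega) (by omega)
      refine hno z hz (by omega) (by omega) ?_
      rw [hzr]
      exact hr
  · rw [heq]
    omega
  · rw [heq, hn]
    omega

open Classical in
/-- the numbers `n` are different -/
theorem v9_count (κ x : ℝ) (y M a T h : ℕ) (hya : y < a) (hh1 : 1 ≤ h)
    (hM : ∀ p : ℕ, p.Prime → p ∣ M → p ≤ y) (hHM : hE κ y < M)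
    (hx : ((a + M * T + hE κ y : ℕ) : ℝ) ≤ x) :
    (((Icc 1 T).filter (fun t => GV (SE κ y M a) a M h t)).card : ℝ) ≤
      (Set.ncard {n : ℕ | (Nat.nth Nat.Prime (n + 1) : ℝ) ≤ x ∧
        Nat.nth Nat.Prime (n + 1) = Nat.nth Nat.Prime n + h} : ℝ) := by
  have hmono := Nat.nth_strictMono Nat.infinite_setOf_prime
  set S := {n : ℕ | (Nat.nth Nat.Prime (n + 1) : ℝ) ≤ x ∧
        Nat.nth Nat.Prime (n + 1) = Nat.nth Nat.Prime n + h} with hS
  set A := (Icc 1 T).filter (fun t => GV (SE κ y M a) a M h t) with hA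
  have hfin : S.Finite := by
    refine (Set.finite_Iic ⌊x⌋₊).subset ?_
    rintro n ⟨hn, -⟩
    have h1 : n + 1 ≤ Nat.nth Nat.Prime (n + 1) := hmono.le_apply
    have h2 : ((n : ℕ) : ℝ) ≤ x := by
      have h3 : ((n + 1 : ℕ) : ℝ) ≤ (Nat.nth Nat.Prime (n + 1) : ℝ) := by exact_mod_cast h1
      have h4 : (n : ℝ) ≤ ((n + 1 : ℕ) : ℝ) := by exact_mod_cast Nat.le_add_right n 1
      linarith
    exact Nat.le_floor h2
  have hex : ∀ t ∈ A, ∃ n : ℕ, a + M * t < Nat.nth Nat.Prime n ∧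
      Nat.nth Nat.Prime (n + 1) ≤ a + M * t + hE κ y ∧
      Nat.nth Nat.Prime (n + 1) = Nat.nth Nat.Prime n + h :=
    fun t ht => v9_one κ y M a h hya hh1 hM t (Finset.mem_filter.1 ht).2
  choose! nn hnn using hex
  have h1 : A.image nn ⊆ hfin.toFinset := by
    intro n hn
    obtain ⟨t, ht, rfl⟩ := Finset.mem_image.1 hn
    rw [Set.Finite.mem_toFinset]
    obtain ⟨-, h2, h3⟩ := hnn t ht
    refine ⟨?_, h3⟩
    have htT : t ≤ T := (Finset.mem_Icc.1 (Finset.mem_filter.1 ht).1).2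
    have h4 : Nat.nth Nat.Prime (nn t + 1) ≤ a + M * T + hE κ y := by
      have h5 : M * t ≤ M * T := Nat.mul_le_mul_left _ htT
      omega
    have h5 : (Nat.nth Nat.Prime (nn t + 1) : ℝ) ≤ ((a + M * T + hE κ y : ℕ) : ℝ) := by
      exact_mod_cast h4
    linarith
  have h2 : Set.InjOn nn (A : Set ℕ) := by
    have key : ∀ t ∈ A, ∀ t' ∈ A, t < t' → nn t ≠ nn t' := by
      intro t ht t' ht' htt heq
      obtain ⟨-, h3, -⟩ := hnn t ht
      obtain ⟨h4, -, -⟩ := hnn t' ht'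
      have h5 : Nat.nth Nat.Prime (nn t) ≤ Nat.nth Nat.Prime (nn t + 1) :=
        hmono.monotone (Nat.le_add_right _ _)
      have h6 : M * (t + 1) ≤ M * t' := Nat.mul_le_mul_left _ htt
      rw [Nat.mul_add, Nat.mul_one] at h6
      rw [← heq] at h4
      omega
    intro t ht t' ht' heq
    rcases lt_trichotomy t t' with h | h | h
    · exact absurd heq (key t ht t' ht' h)
    · exact h
    · exact absurd heq.symm (key t' ht' t ht h)
  have h3 := Finset.card_le_card h1
  rw [Finset.card_image_of_injOn h2, ← Set.ncard_eq_toFinset_card S hfin] at h3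
  exact_mod_cast h3

theorem v9_ff_low (X x L1 L2 L3 L4 : ℝ) (hX : 1 ≤ X) (hx : X ≤ x) (hx2 : x ≤ 100 * X + 100)
    (h1 : L1 = Real.log X) (h2 : L2 = Real.log L1) (h3 : L3 = Real.log L2)
    (h4 : L4 = Real.log L3) (b1 : 6 ≤ L1) (b2 : 1 ≤ L2) (b3 : 1 ≤ L3) (b4 : 1 ≤ L4) :
    L1 * L2 ^ 2 * L4 / (2 * L3) ^ 2 ≤ ff x := by
  unfold ff
  have hl2 : Real.log 2 ≤ 1 := by
    have := Real.log_two_lt_d9
    linarith
  have hl200 : Real.log 200 ≤ 6 := by
    have : (200 : ℝ) ≤ 2 ^ 8 := by norm_num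
    have h := Real.log_le_log (by norm_num) this
    rw [Real.log_pow] at h
    have := Real.log_two_lt_d9
    push_cast at h
    linarith
  have u1 : Real.log x ≤ 2 * L1 := by
    have : x ≤ 200 * X := by linarith
    have h := Real.log_le_log (by linarith) this
    rw [Real.log_mul (by norm_num) (by linarith)] at h
    linarith
  have l1 : L1 ≤ Real.log x := by
    rw [h1]
    exact Real.log_le_log (by linarith) hx
  have u2 : Real.log (Real.log x) ≤ 2 * L2 := by
    have h := Real.log_le_log (by linarith) u1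
    rw [Real.log_mul (by norm_num) (by linarith)] at h
    linarith
  have l2 : L2 ≤ Real.log (Real.log x) := by
    rw [h2]
    exact Real.log_le_log (by linarith) l1
  have u3 : Real.log (Real.log (Real.log x)) ≤ 2 * L3 := by
    have h := Real.log_le_log (by linarith) u2
    rw [Real.log_mul (by norm_num) (by linarith)] at h
    linarith
  have l3 : L3 ≤ Real.log (Real.log (Real.log x)) := by
    rw [h3]
    exact Real.log_le_log (by linarith) l2
  have l4 : L4 ≤ Real.log (Real.log (Real.log (Real.log x))) := by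
    rw [h4]
    exact Real.log_le_log (by linarith) l3
  apply div_le_div₀
  · apply mul_nonneg
    · have : 0 ≤ Real.log x := by linarith
      positivity
    · linarith
  · apply mul_le_mul _ l4 (by linarith) (by
      have : 0 ≤ Real.log x := by linarith
      positivity)
    apply mul_le_mul l1 _ (by positivity) (by linarith)
    exact pow_le_pow_left₀ (by linarith) l2 2
  · have : 0 < Real.log (Real.log (Real.log x)) := by linarith
    positivity
  · exact pow_le_pow_left₀ (by linarith) u3 2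

theorem v9_hE_up (κ δ L1 L2 L3 L4 : ℝ) (hκ : 0 < κ) (hκ1 : κ ≤ 1) (hδ : 0 < δ) (hδ1 : δ ≤ 1)
    (h2 : L2 = Real.log L1) (h3 : L3 = Real.log L2)
    (h4 : L4 = Real.log L3) (b1 : 2 ≤ δ * L1) (b1' : 1 ≤ L1) (b2 : 2 * Real.log (2 / δ) ≤ L2)
    (b2' : 4 ≤ L2)
    (b3 : 4 ≤ L3) (b4 : 2 ≤ L4) :
    (hE κ ⌊δ * L1⌋₊ : ℝ) ≤ 4 * δ * (L1 * L2 ^ 2 * L4 / L3 ^ 2) := by
  have hl2 : Real.log 2 ≤ 1 := by
    have := Real.log_two_lt_d9
    linarith
  unfold hE
  set y : ℝ := ((⌊δ * L1⌋₊ : ℕ) : ℝ) with hy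
  have y1 : δ * L1 / 2 ≤ y := by
    have := Nat.lt_floor_add_one (δ * L1)
    rw [← hy] at this
    linarith
  have y3 : y ≤ δ * L1 := by
    have h := Nat.floor_le (by positivity : 0 ≤ δ * L1)
    rw [← hy] at h
    exact h
  have y2 : y ≤ L1 := by nlinarith
  have y0 : 0 < y := by linarith
  have l1 : L2 / 2 ≤ Real.log y := by
    have h := Real.log_le_log (by linarith) y1
    have e : δ * L1 / 2 = L1 / (2 / δ) := by
      field_simp
    rw [e, Real.log_div (by linarith) (by positivity), ← h2] at h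
    linarith
  have u1 : Real.log y ≤ L2 := by
    rw [h2]
    exact Real.log_le_log y0 y2
  have l2 : L3 / 2 ≤ Real.log (Real.log y) := by
    have h := Real.log_le_log (by linarith) l1
    rw [Real.log_div (by linarith) (by norm_num), ← h3] at h
    linarith
  have u2 : Real.log (Real.log y) ≤ L3 := by
    rw [h3]
    exact Real.log_le_log (by linarith) u1
  have l3 : L4 / 2 ≤ Real.log (Real.log (Real.log y)) := by
    have h := Real.log_le_log (by linarith) l2
    rw [Real.log_div (by linarith) (by norm_num), ← h4] at h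
    linarith
  have u3 : Real.log (Real.log (Real.log y)) ≤ L4 := by
    rw [h4]
    exact Real.log_le_log (by linarith) u2
  refine (Nat.floor_le ?_).trans ?_
  · have : 0 ≤ Real.log (Real.log (Real.log y)) := by linarith
    positivity
  · calc κ * (y * (Real.log y) ^ 2 * Real.log (Real.log (Real.log y)) /
          (Real.log (Real.log y)) ^ 2)
        ≤ 1 * ((δ * L1) * L2 ^ 2 * L4 / (L3 / 2) ^ 2) := by
          apply mul_le_mul hκ1 _ _ (by norm_num)
          · apply div_le_div₀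
            · apply mul_nonneg
              · positivity
              · linarith
            · apply mul_le_mul _ u3 (by linarith) (by positivity)
              apply mul_le_mul y3 _ (by positivity) (by linarith)
              exact pow_le_pow_left₀ (by linarith) u1 2
            · positivity
            · exact pow_le_pow_left₀ (by linarith) l2 2
          · have : 0 ≤ Real.log (Real.log (Real.log y)) := by linarith
            positivity
      _ = 4 * δ * (L1 * L2 ^ 2 * L4 / L3 ^ 2) := by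
          have : L3 ≠ 0 := by linarith
          field_simp
          ring

/-- the window is shorter than `ff x` -/
theorem hE_le_ff (κ δ : ℝ) (hκ : 0 < κ) (hκ1 : κ ≤ 1) (hδ : 0 < δ) (hδ1 : δ ≤ 1 / 100) :
    ∃ X₀ : ℕ, ∀ X : ℕ, X₀ ≤ X → ∀ x : ℝ, (X : ℝ) ≤ x → x ≤ 100 * X + 100 →
      (hE κ ⌊δ * Real.log X⌋₊ : ℝ) ≤ ff x := by
  have t0 : Filter.Tendsto (fun X : ℕ => (X : ℝ)) Filter.atTop Filter.atTop :=
    tendsto_natCast_atTop_atTop
  have t1 := Real.tendsto_log_atTop.comp t0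
  have t2 := Real.tendsto_log_atTop.comp t1
  have t3 := Real.tendsto_log_atTop.comp t2
  have t4 := Real.tendsto_log_atTop.comp t3
  have ev : ∀ᶠ X : ℕ in Filter.atTop, 1 ≤ (X : ℝ) ∧ (6 ≤ Real.log X ∧ 2 / δ ≤ Real.log X) ∧
      (4 ≤ Real.log (Real.log X) ∧
      2 * Real.log (2 / δ) ≤ Real.log (Real.log X)) ∧
      4 ≤ Real.log (Real.log (Real.log X)) ∧ 2 ≤ Real.log (Real.log (Real.log (Real.log X))) := by
    filter_upwards [t0.eventually_ge_atTop 1, t1.eventually_ge_atTop 6,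
      t1.eventually_ge_atTop (2 / δ),
      t2.eventually_ge_atTop 4, t2.eventually_ge_atTop (2 * Real.log (2 / δ)),
      t3.eventually_ge_atTop 4, t4.eventually_ge_atTop 2] with X a b c e f g h
    exact ⟨a, ⟨b, c⟩, ⟨e, f⟩, g, h⟩
  obtain ⟨X₀, hX₀⟩ := Filter.eventually_atTop.1 ev
  refine ⟨X₀, fun X hX x hx hx2 => ?_⟩
  obtain ⟨a, ⟨b, c⟩, ⟨e, f⟩, g, h⟩ := hX₀ X hX
  set L1 := Real.log X with hL1
  set L2 := Real.log L1 with hL2
  set L3 := Real.log L2 with hL3
  set L4 := Real.log L3 with hL4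
  have c' : 2 ≤ δ * L1 := by
    rw [div_le_iff₀ hδ] at c
    linarith
  have hlow := v9_ff_low X x L1 L2 L3 L4 a hx hx2 hL1 hL2 hL3 hL4 b (by linarith) (by linarith)
    (by linarith)
  have hup := v9_hE_up κ δ L1 L2 L3 L4 hκ hκ1 hδ (by linarith) hL2 hL3 hL4 c' (by linarith) f e g h
  have hG : 0 ≤ L1 * L2 ^ 2 * L4 / L3 ^ 2 := by
    have : 0 ≤ L1 := by linarith
    have : 0 ≤ L4 := by linarith
    positivity
  have heq : L1 * L2 ^ 2 * L4 / (2 * L3) ^ 2 = 1 / 4 * (L1 * L2 ^ 2 * L4 / L3 ^ 2) := by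
    have : L3 ≠ 0 := by linarith
    field_simp
    ring
  rw [heq] at hlow
  nlinarith

/-- As `H5C.chains` (`FD2.lean`, copy its proof). For `t` with `GV (SE ..) a M h t` the numbers
`a + x + M t` and `a + x + h + M t` are consecutive primes (`key` of `fd2_one`), different `t` give
different primes as `hE κ y < M`. -/
theorem gap_values (ε0 : ℝ) (hε0 : 0 < ε0) : ∃ c : ℝ, 0 < c ∧ ∀ᶠ x : ℝ in Filter.atTop,
    c * Pool.Agent.Lib.H56G.ff x ≤
      (Set.ncard {h : ℕ | (h : ℝ) ≤ Pool.Agent.Lib.H56G.ff x ∧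
        x ^ (1 - ε0) ≤ (Set.ncard {n : ℕ | (Nat.nth Nat.Prime (n + 1) : ℝ) ≤ x ∧
        Nat.nth Nat.Prime (n + 1) = Nat.nth Nat.Prime n + h} : ℝ)} : ℝ) := by
  classical
  set ε := min ε0 1 with hεd
  have hε : 0 < ε := lt_min hε0 one_pos
  have hε1 : ε ≤ 1 := min_le_right _ _
  obtain ⟨δ, κ, c, hδ, hδ1, hκ, hκ1, hc, X₀, hX⟩ := good_v (ε / 2) (by positivity)
  obtain ⟨c', hc', X₁, hff⟩ := ff_le_hE κ δ hκ hδ (by linarith)
  obtain ⟨X₂, hup⟩ := hE_le_ff κ δ hκ hκ1 hδ hδ1
  obtain ⟨y₀, hy₀⟩ := mm_ge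
  obtain ⟨x₀, hx₀⟩ := fd2_ev δ ε hδ hε (max (max X₀ X₁) X₂) y₀
  refine ⟨c * c', by positivity, ?_⟩
  filter_upwards [Filter.eventually_ge_atTop x₀] with x hx
  obtain ⟨e1, e2, e3, e4, e5, e6, e7⟩ := hx₀ x hx
  set X := ⌊x / 70⌋₊ with hXd
  have hx0 : 0 < x := by linarith
  have hXx : (X : ℝ) ≤ x / 70 := Nat.floor_le (by positivity)
  have hX0 : (0 : ℝ) < X := lt_of_lt_of_le (by positivity) e7
  have hX1 : (1 : ℝ) ≤ X := by
    have h1 : 0 < X := by exact_mod_cast hX0
    exact_mod_cast h1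
  obtain ⟨D, p1, a, T, hD, ha1, ha2, hMT, S, hS1, hS2, hS3⟩ :=
    hX X (le_trans (le_max_left _ _) (le_trans (le_max_left _ _) e1))
  set y := ⌊δ * log (X : ℝ)⌋₊ with hyd
  set M := MM y D p1 with hMd
  have hHM : hE κ y < M := hy₀ y e2 D p1 hD κ hκ hκ1
  have hMX : (M : ℝ) ≤ X := by
    have h1 : (M : ℝ) ≤ (4 : ℝ) ^ y := by exact_mod_cast mm_le y D p1
    have hlX : 0 ≤ log (X : ℝ) := Real.log_nonneg hX1
    have h2 : (y : ℝ) ≤ δ * log X := Nat.floor_le (by positivity)
    have h3 : (4 : ℝ) ^ y = exp (y * log 4) := by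
      rw [Real.exp_nat_mul, Real.exp_log (by norm_num)]
    have h4 : log 4 ≤ 2 := by
      have h5 : (4 : ℝ) = 2 ^ 2 := by norm_num
      rw [h5, Real.log_pow]
      have := Real.log_two_lt_d9
      push_cast
      linarith
    have h5 : (y : ℝ) * log 4 ≤ log X := by
      have h6 : 0 ≤ log (4 : ℝ) := Real.log_nonneg (by norm_num)
      calc (y : ℝ) * log 4 ≤ (δ * log X) * 2 := mul_le_mul h2 h4 h6 (by positivity)
        _ = (2 * δ) * log X := by ring
        _ ≤ 1 * log X := mul_le_mul_of_nonneg_right (by linarith) hlX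
        _ = log X := one_mul _
    calc (M : ℝ) ≤ (4 : ℝ) ^ y := h1
      _ = exp (y * log 4) := h3
      _ ≤ exp (log X) := Real.exp_le_exp.2 h5
      _ = X := Real.exp_log hX0
  have hsize : ((a + M * T + hE κ y : ℕ) : ℝ) ≤ x := by
    have h1 : ((M * T : ℕ) : ℝ) ≤ ((61 * X : ℕ) : ℝ) := Nat.cast_le.2 hMT
    have h2 : ((hE κ y : ℕ) : ℝ) ≤ M := Nat.cast_le.2 hHM.le
    push_cast at h1 ⊢
    linarith
  have hpow : x ^ (1 - ε0) ≤ (X : ℝ) ^ (1 - ε / 2) := by
    have h1 : x ^ (1 - ε0) ≤ x ^ (1 - ε) :=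
      Real.rpow_le_rpow_of_exponent_le (by linarith) (by linarith [min_le_left ε0 1])
    have h2 : x ^ (1 - ε) * 140 ≤ x ^ (1 - ε / 2) := by
      have h3 : x ^ (1 - ε / 2) = x ^ (1 - ε) * x ^ (ε / 2) := by
        rw [← Real.rpow_add hx0]
        congr 1
        ring
      rw [h3]
      exact mul_le_mul_of_nonneg_left e5 (Real.rpow_nonneg hx0.le _)
    have h3 : (x / 140) ^ (1 - ε / 2) ≤ (X : ℝ) ^ (1 - ε / 2) :=
      Real.rpow_le_rpow (by positivity) e7 (by linarith)
    have h4 : x ^ (1 - ε / 2) / 140 ≤ (x / 140) ^ (1 - ε / 2) := by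
      rw [Real.div_rpow hx0.le (by norm_num)]
      refine div_le_div_of_nonneg_left (Real.rpow_nonneg hx0.le _) (by positivity) ?_
      calc (140 : ℝ) ^ (1 - ε / 2) ≤ (140 : ℝ) ^ (1 : ℝ) :=
            Real.rpow_le_rpow_of_exponent_le (by norm_num) (by linarith)
        _ = 140 := Real.rpow_one _
    linarith
  -- the set of the values
  set O := {h : ℕ | (h : ℝ) ≤ Pool.Agent.Lib.H56G.ff x ∧
        x ^ (1 - ε0) ≤ (Set.ncard {n : ℕ | (Nat.nth Nat.Prime (n + 1) : ℝ) ≤ x ∧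
        Nat.nth Nat.Prime (n + 1) = Nat.nth Nat.Prime n + h} : ℝ)} with hO
  have hOfin : O.Finite := by
    refine (Set.finite_Iic ⌊x⌋₊).subset ?_
    intro h hh
    have h1 : (0 : ℝ) < (Set.ncard {n : ℕ | (Nat.nth Nat.Prime (n + 1) : ℝ) ≤ x ∧
        Nat.nth Nat.Prime (n + 1) = Nat.nth Nat.Prime n + h} : ℝ) :=
      lt_of_lt_of_le (Real.rpow_pos_of_pos hx0 _) hh.2
    have h2 : 0 < Set.ncard {n : ℕ | (Nat.nth Nat.Prime (n + 1) : ℝ) ≤ x ∧
        Nat.nth Nat.Prime (n + 1) = Nat.nth Nat.Prime n + h} := by exact_mod_cast h1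
    obtain ⟨n, hn⟩ := Set.nonempty_of_ncard_ne_zero h2.ne'
    obtain ⟨hn1, hn2⟩ := hn
    rw [Set.mem_Iic]
    apply Nat.le_floor
    have h3 : (h : ℝ) ≤ (Nat.nth Nat.Prime (n + 1) : ℝ) := by
      have : h ≤ Nat.nth Nat.Prime (n + 1) := by omega
      exact_mod_cast this
    linarith
  have hx3 : x ≤ 100 * (X : ℝ) + 100 := by
    have := Nat.lt_floor_add_one (x / 70)
    rw [← hXd] at this
    linarith
  have hup' := hup X (le_trans (le_max_right _ _) e1) x (by linarith) hx3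
  have hSO : (S : Set ℕ) ⊆ O := by
    intro h hh
    have hhS : h ∈ S := hh
    have hh1 := (Finset.mem_Icc.1 (hS1 hhS)).1
    have hcount := v9_count κ x y M a T h (by exact_mod_cast ha1) hh1
      (fun p hp hpM => mm_prime y D p1 p hp hpM) hHM hsize
    refine ⟨?_, hpow.trans ((hS3 h hhS).trans hcount)⟩
    have hh2 : (h : ℝ) ≤ (hE κ y : ℝ) := by exact_mod_cast (Finset.mem_Icc.1 (hS1 hhS)).2
    exact hh2.trans hup'
  have hcard : (S.card : ℝ) ≤ (Set.ncard O : ℝ) := by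
    rw [← Set.ncard_coe_finset]
    exact_mod_cast Set.ncard_le_ncard hSO hOfin
  have h3 := hff X (le_trans (le_max_right _ _) (le_trans (le_max_left _ _) e1)) x (by linarith)
    hx3
  calc c * c' * ff x = c * (c' * ff x) := by ring
    _ ≤ c * hE κ y := mul_le_mul_of_nonneg_left h3 hc.le
    _ ≤ (S.card : ℝ) := hS2
    _ ≤ (Set.ncard O : ℝ) := hcard

end Pool.Agent.Lib.H92V
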